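import Pool.Agent.Hhelper77.SuperTransfer

universe u v w

namespace Pool.Agent.Hhelper77

open Superstructure NonstandardExtension

/-- `2^(n+1) * p_{n+1} ∤ 2^m * p_{m+1}` -/
theorem no_div (k n : ℕ) :
    ¬ (2 ^ (k + 1) * Nat.nth Nat.Prime (k + 1) ∣ 2 ^ n * Nat.nth Nat.Prime (n + 1)) := by
  intro h
  have hpk : (Nat.nth Nat.Prime (k + 1)).Prime := Nat.prime_nth_prime _
  have hpn : (Nat.nth Nat.Prime (n + 1)).Prime := Nat.prime_nth_prime _
  have hodd : ∀ j, Nat.nth Nat.Prime (j + 1) ≠ 2 := by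
    intro j hj
    have h0 : Nat.nth Nat.Prime 0 = 2 := Nat.nth_prime_zero_eq_two
    have := Nat.nth_injective Nat.infinite_setOf_prime (hj.trans h0.symm)
    omega
  have h1 : Nat.nth Nat.Prime (k + 1) ∣ 2 ^ n * Nat.nth Nat.Prime (n + 1) :=
    (Dvd.intro_left _ rfl).trans h
  rcases (Nat.Prime.dvd_mul hpk).1 h1 with h2 | h2
  · have h3 := hpk.dvd_of_dvd_pow h2
    exact hodd k ((Nat.prime_dvd_prime_iff_eq hpk Nat.prime_two).1 h3)
  · have h3 := (Nat.prime_dvd_prime_iff_eq hpk hpn).1 h2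
    have h4 := Nat.nth_injective Nat.infinite_setOf_prime h3
    have h5 : k = n := by omega
    subst h5
    have h6 := Nat.dvd_of_mul_dvd_mul_right hpk.pos h
    have h7 := Nat.pow_dvd_pow_iff_le_right (x := 2) (k := k + 1) (l := k) (by norm_num)
    have := h7.1 h6
    omega

theorem counterexample (E : NonstandardExtension.{u, v, w}) (hE : E.Proper) :
    ∃ x y z : E.Y, z ∈ E.starSet {r | r.Prime} ∧ EqTilde (E.v x) (E.v y) ∧
      ¬ EqTilde (E.v (E.mul x z)) (E.v (E.mul y z)) := by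
  obtain ⟨a, ha⟩ := hE
  obtain ⟨x, hx⟩ := E.exists_isVal (fun n => 2 ^ (n + 1)) a
  obtain ⟨y, hy⟩ := E.exists_isVal (fun n => 2 ^ n) a
  obtain ⟨z, hz⟩ := E.exists_isVal (fun n => Nat.nth Nat.Prime (n + 1)) a
  obtain ⟨p, hp⟩ := E.exists_isVal (fun n => 2 ^ (n + 1) * Nat.nth Nat.Prime (n + 1)) a
  obtain ⟨q, hq⟩ := E.exists_isVal (fun n => 2 ^ n * Nat.nth Nat.Prime (n + 1)) a
  refine ⟨x, y, z, ?_, ⟨?_, ?_⟩, ?_⟩
  · rw [isVal_starSet hz]
    have : (fun n => Nat.nth Nat.Prime (n + 1)) ⁻¹' {r | r.Prime} = Set.univ := by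
      ext n
      simp only [Set.mem_preimage, Set.mem_univ, iff_true]
      exact Nat.prime_nth_prime _
    rw [this, starSet_univ]
    trivial
  · intro A hA hxA
    have h1 : a ∈ E.starSet ((fun n => 2 ^ (n + 1)) ⁻¹' A) := (isVal_starSet hx A).1 hxA
    have h2 : y ∈ E.starSet A := by
      rw [isVal_starSet hy A]
      by_cases hex : ∃ n0, 2 ^ (n0 + 1) ∈ A ∧ 2 ^ n0 ∉ A
      · obtain ⟨n0, hn0, hn0'⟩ := hex
        rcases starSet_union (T := (fun n => 2 ^ n) ⁻¹' A) (U := {n0}) (by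
          intro n hn
          by_cases hnn : n = n0
          · right; exact hnn
          · left
            show 2 ^ n ∈ A
            have hlt : n0 + 1 ≤ n := by
              by_contra hcon
              have hle : n + 1 ≤ n0 := by omega
              exact hn0' (hA _ hn _ (pow_dvd_pow 2 hle))
            exact hA _ hn0 _ (pow_dvd_pow 2 hlt)) h1 with h | h
        · exact h
        · exact absurd ⟨n0, (starSet_singleton h).symm⟩ ha
      · push Not at hex
        exact starSet_mono (fun n hn => hex n hn) h1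
    exact h2
  · intro A hA hyA
    have h1 : a ∈ E.starSet ((fun n => 2 ^ n) ⁻¹' A) := (isVal_starSet hy A).1 hyA
    have h2 : x ∈ E.starSet A := by
      rw [isVal_starSet hx A]
      exact starSet_mono (T := (fun n => 2 ^ n) ⁻¹' A)
        (fun n (hn : 2 ^ n ∈ A) => show 2 ^ (n + 1) ∈ A from
          hA _ hn _ (pow_dvd_pow 2 (Nat.le_succ n))) h1
    exact h2
  · rw [mul_eq_of_isProd (isProd_of_isVal (fun _ => rfl) hx hz hp),
      mul_eq_of_isProd (isProd_of_isVal (fun _ => rfl) hy hz hq)]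
    intro h
    let A : Set ℕ := {m | ∃ n, 2 ^ (n + 1) * Nat.nth Nat.Prime (n + 1) ∣ m}
    have hA : UpClosed A := by
      rintro m ⟨n, hn⟩ k hk
      exact ⟨n, hn.trans hk⟩
    have hpA : A ∈ E.v p := by
      show p ∈ E.starSet A
      rw [isVal_starSet hp A]
      have : (fun n => 2 ^ (n + 1) * Nat.nth Nat.Prime (n + 1)) ⁻¹' A = Set.univ := by
        ext n
        simp only [Set.mem_preimage, Set.mem_univ, iff_true]
        exact ⟨n, dvd_rfl⟩
      rw [this, starSet_univ]
      trivial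
    have hqA : q ∈ E.starSet A := h.1 A hA hpA
    rw [isVal_starSet hq A] at hqA
    have : (fun n => 2 ^ n * Nat.nth Nat.Prime (n + 1)) ⁻¹' A = ∅ := by
      ext n
      simp only [Set.mem_preimage, Set.mem_empty_iff_false, iff_false]
      rintro ⟨k, hk⟩
      exact no_div k n hk
    rw [this] at hqA
    exact absurd hqA (starSet_disjoint (T := ∅) (U := ∅) (by simp) hqA)

end Pool.Agent.Hhelper77
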