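import Pool.Agent.Hhelper77.SuperUltrapower

universe u v w

namespace Pool.Agent.Hhelper77

open Superstructure NonstandardExtension BddFormula

/-- multiples of `p_i p_{i+k}` for some `i` -/
def shiftSet (k : ℕ) : Set ℕ := {m | ∃ i, Nat.nth Nat.Prime i * Nat.nth Nat.Prime (i + k) ∣ m}

theorem shiftSet_up (k : ℕ) : UpClosed (shiftSet k) := by
  rintro m ⟨i, hi⟩ n hn
  exact ⟨i, hi.trans hn⟩

theorem mem_shiftSet_iff {k j m : ℕ} (hk : 0 < k)
    (h : Nat.nth Nat.Prime j * Nat.nth Nat.Prime m ∈ shiftSet k) : m = j + k ∨ j = m + k := by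
  obtain ⟨l, hl⟩ := h
  have hp : ∀ i, (Nat.nth Nat.Prime i).Prime := fun i => Nat.prime_nth_prime i
  have hinj : ∀ {a b}, Nat.nth Nat.Prime a ∣ Nat.nth Nat.Prime b → a = b := by
    intro a b hab
    exact Nat.nth_injective Nat.infinite_setOf_prime
      ((Nat.prime_dvd_prime_iff_eq (hp a) (hp b)).1 hab)
  have h1 : l = j ∨ l = m := by
    rcases (Nat.Prime.dvd_mul (hp l)).1 ((Dvd.intro _ rfl).trans hl) with h | h
    · exact Or.inl (hinj h)
    · exact Or.inr (hinj h)
  have h2 : l + k = j ∨ l + k = m := by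
    rcases (Nat.Prime.dvd_mul (hp (l + k))).1 ((Dvd.intro_left _ rfl).trans hl) with h | h
    · exact Or.inl (hinj h)
    · exact Or.inr (hinj h)
  omega

theorem std_fact (x y : ℕ) (hx : x.Prime) (hy : y.Prime) (hxy : x ≠ y) :
    ∃ z : ℕ, z.Prime ∧ z ≠ x ∧ z ≠ y ∧
      ((x * z ∈ shiftSet 1 ∧ y * z ∉ shiftSet 1) ∨ (x * z ∈ shiftSet 3 ∧ y * z ∉ shiftSet 3)) := by
  obtain ⟨i, hi⟩ : ∃ i, Nat.nth Nat.Prime i = x := ⟨_, Nat.nth_count hx⟩
  obtain ⟨j, hj⟩ : ∃ j, Nat.nth Nat.Prime j = y := ⟨_, Nat.nth_count hy⟩
  subst hi hj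
  have hij : i ≠ j := fun h => hxy (by rw [h])
  have hinj : ∀ {a b}, Nat.nth Nat.Prime a = Nat.nth Nat.Prime b → a = b := by
    intro a b hab
    exact Nat.nth_injective Nat.infinite_setOf_prime hab
  by_cases hc : j = i + 1 ∨ j = i + 2
  · refine ⟨Nat.nth Nat.Prime (i + 3), Nat.prime_nth_prime _, ?_, ?_, Or.inr ⟨⟨i, dvd_rfl⟩, ?_⟩⟩
    · intro h; have := hinj h; omega
    · intro h; have := hinj h; omega
    · intro h; have := mem_shiftSet_iff (by norm_num) h; omega
  · refine ⟨Nat.nth Nat.Prime (i + 1), Nat.prime_nth_prime _, ?_, ?_, Or.inl ⟨⟨i, dvd_rfl⟩, ?_⟩⟩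
    · intro h; have := hinj h; omega
    · intro h; have := hinj h; omega
    · intro h; have := mem_shiftSet_iff (by norm_num) h; omega

theorem primes_counterexample (E : NonstandardExtension.{u, v, w}) (x y : E.Y)
    (hx : x ∈ E.starSet {r | r.Prime}) (hy : y ∈ E.starSet {r | r.Prime}) (hxy : x ≠ y) :
    ∃ z ∈ E.starSet {r | r.Prime}, z ≠ x ∧ z ≠ y ∧
      ¬ EqTilde (E.v (E.mul x z)) (E.v (E.mul y z)) := by
  have key := (E.transfer (.ball 5 0 (.ball 6 0 (imp (.not (.eq 5 6)) (bex 7 0 (.and
      (.not (.eq 7 5)) (.and (.not (.eq 7 6)) (bex 8 1 (bex 9 1 (.and (rel3 2 5 7 8 10 11 12 13 14)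
        (.and (rel3 2 6 7 9 10 11 12 13 14) (or (.and (.mem 8 3) (.not (.mem 9 3)))
          (.and (.mem 8 4) (.not (.mem 9 4)))))))))))))) 
    (fun k => if k = 0 then E.VN.ofSet {r | r.Prime} else if k = 1 then E.VN.ofSet Set.univ else
      if k = 2 then mulGraph E.VN else if k = 3 then E.VN.ofSet (shiftSet 1)
      else E.VN.ofSet (shiftSet 3))).1 (by
      simp only [sat_ball, sat_imp, sat_eq, sat_not, sat_bex, sat_and, sat_or, sat_mem]
      intro x hx y hy hxy
      simp (decide := true) only [Function.update_self, Function.update_of_ne, if_true, ne_eq]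
        at hx hy hxy
      obtain ⟨x, hx', rfl⟩ := mem_ofSet.1 hx
      obtain ⟨y, hy', rfl⟩ := mem_ofSet.1 hy
      obtain ⟨z, hz1, hz2, hz3, hz4⟩ := std_fact x y hx' hy' (fun h => hxy (by rw [h]))
      refine ⟨E.VN.atom z, ?_, ?_, ?_, E.VN.atom (x * z), ?_, E.VN.atom (y * z), ?_, ?_, ?_, ?_⟩
      · simp (decide := true) only [Function.update_of_ne, if_true, ne_eq]
        exact atom_mem_ofSet.2 hz1
      · simp (decide := true) only [Function.update_self, Function.update_of_ne, if_true, ne_eq]
        intro h; exact hz2 (E.VN.atom_injective h)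
      · simp (decide := true) only [Function.update_self, Function.update_of_ne, if_true, ne_eq]
        intro h; exact hz3 (E.VN.atom_injective h)
      · simp (decide := true) only [Function.update_of_ne, if_true, if_false, ne_eq]
        exact atom_mem_ofSet.2 trivial
      · simp (decide := true) only [Function.update_of_ne, if_true, if_false, ne_eq]
        exact atom_mem_ofSet.2 trivial
      · rw [sat_rel3 (by decide) (by decide) (by decide) (by decide) (by decide) (by decide)
          (by decide) (by decide) (by decide) (by decide) (by decide) (by decide)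
          (by decide) (by decide) (by decide) (by decide) (by decide) (by decide) (by decide)]
        simp (decide := true) only [Function.update_self, Function.update_of_ne, ne_eq,
          if_false, if_true]
        exact mem_mulGraph.2 rfl
      · rw [sat_rel3 (by decide) (by decide) (by decide) (by decide) (by decide) (by decide)
          (by decide) (by decide) (by decide) (by decide) (by decide) (by decide)
          (by decide) (by decide) (by decide) (by decide) (by decide) (by decide) (by decide)]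
        simp (decide := true) only [Function.update_self, Function.update_of_ne, ne_eq,
          if_false, if_true]
        exact mem_mulGraph.2 rfl
      · simp (decide := true) only [Function.update_self, Function.update_of_ne, ne_eq,
          if_false, if_true]
        rw [atom_mem_ofSet, atom_mem_ofSet, atom_mem_ofSet, atom_mem_ofSet]
        exact hz4)
  simp only [sat_ball, sat_imp, sat_eq, sat_not, sat_bex, sat_and, sat_or, sat_mem] at key
  obtain ⟨c, hc1, hc2, hc3, d, hd, e, he, h1, h2, h3⟩ := key (E.VY.atom x)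
    (by simp (decide := true) only [if_true]; exact hx)
    (E.VY.atom y)
    (by simp (decide := true) only [Function.update_of_ne, if_true, ne_eq]; exact hy)
    (by
      simp (decide := true) only [Function.update_self, Function.update_of_ne, ne_eq]
      intro h; exact hxy (E.VY.atom_injective h))
  simp (decide := true) only [Function.update_self, Function.update_of_ne, ne_eq,
          if_false, if_true] at hc1 hc2 hc3 hd he h3
  obtain ⟨z, hz, rfl⟩ := mem_star_ofSet hc1
  obtain ⟨p, _, rfl⟩ := mem_star_ofSet hd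
  obtain ⟨q, _, rfl⟩ := mem_star_ofSet he
  rw [sat_rel3 (by decide) (by decide) (by decide) (by decide) (by decide) (by decide)
          (by decide) (by decide) (by decide) (by decide) (by decide) (by decide)
          (by decide) (by decide) (by decide) (by decide) (by decide) (by decide)
          (by decide)] at h1 h2
  simp (decide := true) only [Function.update_self, Function.update_of_ne, ne_eq,
          if_false, if_true] at h1 h2
  refine ⟨z, hz, fun h => hc2 (by rw [h]), fun h => hc3 (by rw [h]), ?_⟩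
  rw [mul_eq_of_isProd h1, mul_eq_of_isProd h2]
  intro heq
  rcases h3 with h3 | h3
  · exact h3.2 (heq.1 _ (shiftSet_up 1) h3.1)
  · exact h3.2 (heq.1 _ (shiftSet_up 3) h3.1)

/-- There are a nonstandard extension and two distinct primes with the same ultrafilter. -/
theorem exists_twins : ∃ (E : NonstandardExtension.{0, 1, 1}) (x y : E.Y),
    x ∈ E.starSet {r | r.Prime} ∧ y ∈ E.starSet {r | r.Prime} ∧ x ≠ y ∧ E.v x = E.v y := by
  let U : Ultrafilter ℕ := Filter.hyperfilter ℕ
  let W : Ultrafilter (ℕ × ℕ) := U.bind (fun m => U.map (fun n => (m, n)))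
  have hW : ∀ P : ℕ × ℕ → Prop, (∀ᶠ i in (W : Filter (ℕ × ℕ)), P i) ↔
      ∀ᶠ m in (U : Filter ℕ), ∀ᶠ n in (U : Filter ℕ), P (m, n) := by
    intro P
    exact Iff.rfl
  refine ⟨Ultrapower.ext W (SuperExists.theSuper ℕ) (SuperExists.theSuper (Ultrapower.Yt W)),
    ((fun i => Nat.nth Nat.Prime i.1 : ℕ × ℕ → ℕ) : Ultrapower.Yt W),
    ((fun i => Nat.nth Nat.Prime i.2 : ℕ × ℕ → ℕ) : Ultrapower.Yt W), ?_, ?_, ?_, ?_⟩
  · have := (Ultrapower.mem_v_ext (W := W) (S := SuperExists.theSuper ℕ)
      (S' := SuperExists.theSuper (Ultrapower.Yt W)) (T := {r | r.Prime})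
      (fun i : ℕ × ℕ => Nat.nth Nat.Prime i.1)).2
        (Filter.Eventually.of_forall fun i => Nat.prime_nth_prime _)
    exact this
  · have := (Ultrapower.mem_v_ext (W := W) (S := SuperExists.theSuper ℕ)
      (S' := SuperExists.theSuper (Ultrapower.Yt W)) (T := {r | r.Prime})
      (fun i : ℕ × ℕ => Nat.nth Nat.Prime i.2)).2
        (Filter.Eventually.of_forall fun i => Nat.prime_nth_prime _)
    exact this
  · intro h
    have h1 : ((fun i => Nat.nth Nat.Prime i.1 : ℕ × ℕ → ℕ) : Ultrapower.Yt W) =
      ((fun i => Nat.nth Nat.Prime i.2 : ℕ × ℕ → ℕ) : Ultrapower.Yt W) := h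
    have h2 := Filter.Germ.coe_eq.1 h1
    have h3 := (hW _).1 h2
    obtain ⟨m, hm⟩ := h3.exists
    have h4 : {n : ℕ | Nat.nth Nat.Prime m = Nat.nth Nat.Prime n}.Finite :=
      (Set.finite_singleton m).subset (by
        intro n hn
        have hn' : Nat.nth Nat.Prime m = Nat.nth Nat.Prime n := hn
        have := Nat.nth_injective Nat.infinite_setOf_prime hn'
        simp [this])
    exact Filter.notMem_hyperfilter_of_finite h4 hm
  · apply Ultrafilter.ext
    intro T
    rw [Ultrapower.mem_v_ext, Ultrapower.mem_v_ext, hW, hW]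
    simp only [Filter.eventually_const]

end Pool.Agent.Hhelper77
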