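import Pool.Agent.RTA.Transfer

/-!
Lower bounds of the probability that two radial arms avoid each other, from upper bounds of the numbers of
self-avoiding paths: if `a_m ≤ K μ^m` for `m ≤ n`, where every path of `n` steps leaves the hexagon of radius `N`,
then the probability is at least `1 / (K^4 (n + 1)^2)`.
-/

namespace Pool.Agent.RTA.Low

open Pool.Agent.Hhelper14.SAW Pool.Agent.Hhelper14.Honeycomb Pool.Agent.RTA.Radial
open Pool.Agent.RTA

/-- The first exit time of the hexagon. -/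
noncomputable def tau (N : ℕ) (z : ℕ → ℤ × ℤ) : ℕ := sInf {i | ¬ Hx N (z i)}

/-- The arm of a walk. -/
noncomputable def arm (N : ℕ) (z : ℕ → ℤ × ℤ) : List (ℤ × ℤ) := (List.range (tau N z + 1)).map z

/-- The remaining part of a walk of `n` steps, moved to `o`. -/
noncomputable def rest (N n : ℕ) (z : ℕ → ℤ × ℤ) : List (ℤ × ℤ) :=
  lst (n - tau N z) fun i => rv (tau N z) (z (tau N z)) (z (tau N z + i))

lemma exit_ex {N n : ℕ} (hn : Bn N ≤ n) {z : ℕ → ℤ × ℤ} (hz : Fw n z) : ∃ i ≤ n, ¬ Hx N (z i) := by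
  classical
  by_contra hcon
  push Not at hcon
  have h1 : (Finset.range (n + 1)).image z ⊆ box N := by
    intro x hx
    obtain ⟨i, hi, rfl⟩ := Finset.mem_image.1 hx
    rw [Finset.mem_range] at hi
    exact near_box (Or.inl (hcon i (by omega)))
  have h2 := Finset.card_le_card h1
  rw [Finset.card_image_of_injOn, Finset.card_range] at h2
  · unfold Bn at hn
    omega
  · intro i hi j hj hij
    simp only [Finset.coe_range, Set.mem_Iio] at hi hj
    exact hz.2.2 i (by omega) j (by omega) hij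

lemma tau_le {N n : ℕ} (hn : Bn N ≤ n) {z : ℕ → ℤ × ℤ} (hz : Fw n z) : tau N z ≤ n := by
  obtain ⟨i, hi, h⟩ := exit_ex hn hz
  exact (Nat.sInf_le (s := {i | ¬ Hx N (z i)}) h).trans hi

lemma tau_spec {N n : ℕ} (hn : Bn N ≤ n) {z : ℕ → ℤ × ℤ} (hz : Fw n z) : ¬ Hx N (z (tau N z)) := by
  obtain ⟨i, hi, h⟩ := exit_ex hn hz
  exact Nat.sInf_mem (s := {i | ¬ Hx N (z i)}) ⟨i, h⟩

lemma lt_tau {N : ℕ} {z : ℕ → ℤ × ℤ} {i : ℕ} (h : i < tau N z) : Hx N (z i) := by
  by_contra hc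
  exact Nat.notMem_of_lt_sInf h hc

lemma arm_length (N : ℕ) (z : ℕ → ℤ × ℤ) : (arm N z).length - 1 = tau N z := by
  simp [arm]

lemma arm_mem {N n : ℕ} (hn : Bn N ≤ n) {z : ℕ → ℤ × ℤ} (hz : Fw n z) : arm N z ∈ ArmZ N := by
  have hle := tau_le hn hz
  have hsp := tau_spec hn hz
  unfold arm
  refine ⟨?_, ?_, ?_, ?_, ?_⟩
  · rw [List.range_succ_eq_map]
    simp [hz.1]
  · unfold HChain
    rw [List.isChain_map, List.isChain_range_succ]
    intro i hi
    exact (hz.2.1 i (by omega)).symm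
  · refine (List.nodup_map_iff_inj_on List.nodup_range).2 ?_
    intro i hi j hj hij
    rw [List.mem_range] at hi hj
    exact hz.2.2 i (by omega) j (by omega) hij
  · intro x hx
    rw [List.range_succ, List.map_append, List.map_singleton, List.dropLast_concat] at hx
    obtain ⟨i, hi, rfl⟩ := List.mem_map.1 hx
    rw [List.mem_range] at hi
    exact lt_tau hi
  · intro x hx
    rw [List.range_succ, List.map_append, List.map_singleton, List.getLast?_concat] at hx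
    have hx' : z (tau N z) = x := by simpa using hx
    rw [← hx']
    exact hsp

lemma rest_mem {N n : ℕ} (hn : Bn N ≤ n) {z : ℕ → ℤ × ℤ} (hz : Fw n z) :
    IsWalk (n - tau N z) (rest N n z) := by
  have hle := tau_le hn hz
  have ht := fw_type hz _ hle
  refine (isWalk_lst _ _).2 ⟨rv_self _ _, ?_, ?_⟩
  · intro i hi
    exact rv_adj ht (hz.2.1 (tau N z + i) (by omega))
  · intro i hi j hj hij
    have := hz.2.2 _ (by omega) _ (by omega) (rv_inj hij)
    omega

lemma arm_rest_inj {N n : ℕ} (hn : Bn N ≤ n) {z y : ℕ → ℤ × ℤ} (hz : Fw n z)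
    (h1 : arm N z = arm N y) (h2 : rest N n z = rest N n y) {i : ℕ} (hi : i ≤ n) : z i = y i := by
  have hT : tau N z = tau N y := by rw [← arm_length, h1, arm_length]
  have hle := tau_le hn hz
  have ha : ∀ j ≤ tau N z, z j = y j := by
    intro j hj
    unfold arm at h1
    rw [← hT] at h1
    exact List.map_inj_left.1 h1 j (List.mem_range.2 (by omega))
  rcases le_or_gt i (tau N z) with h | h
  · exact ha i h
  · unfold rest at h2
    rw [← hT] at h2
    have h3 := lst_inj h2 (i := i - tau N z) (by omega)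
    rw [ha _ le_rfl] at h3
    have h4 := rv_inj h3
    have e : tau N z + (i - tau N z) = i := by omega
    rwa [e] at h4

/-- The walks of `n` steps. -/
noncomputable def wk (n : ℕ) : Finset (List (ℤ × ℤ)) := (walk_finite n).toFinset

lemma mem_wk {n : ℕ} {P : List (ℤ × ℤ)} : P ∈ wk n ↔ IsWalk n P := by
  simp [wk]

lemma card_wk (n : ℕ) : (wk n).card = an n := by
  unfold wk an
  rw [Set.ncard_eq_toFinset_card _ (walk_finite n)]

lemma avoidZ_finite (N : ℕ) : (AvoidZ N).Finite := by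
  refine ((Finset.finite_toSet (armAll N)).prod (Finset.finite_toSet (armAll N))).subset ?_
  rintro q ⟨h1, h2, -⟩
  exact ⟨mem_armAll.2 h1, mem_armAll.2 h2⟩

/-- The avoiding pairs of arms. -/
noncomputable def avF (N : ℕ) : Finset (List (ℤ × ℤ) × List (ℤ × ℤ)) := (avoidZ_finite N).toFinset

lemma mem_avF {N : ℕ} {q : List (ℤ × ℤ) × List (ℤ × ℤ)} : q ∈ avF N ↔ q ∈ AvoidZ N := by
  simp [avF]

/-- The avoiding pairs of walks are counted by their arms. -/
lemma count {N n : ℕ} (hn : Bn N ≤ n) : an (2 * n) ≤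
    ∑ q ∈ avF N, an (n - (q.1.length - 1)) * an (n - (q.2.length - 1)) := by
  rw [← pairsL_card]
  have hcard : ((avF N).sigma fun q => wk (n - (q.1.length - 1)) ×ˢ wk (n - (q.2.length - 1))).card =
      ∑ q ∈ avF N, an (n - (q.1.length - 1)) * an (n - (q.2.length - 1)) := by
    rw [Finset.card_sigma]
    refine Finset.sum_congr rfl fun q _ => ?_
    rw [Finset.card_product, card_wk, card_wk]
  rw [← hcard, ← Set.ncard_coe_finset]
  refine Set.ncard_le_ncard_of_injOn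
    (fun q => ⟨(arm N (pt q.1), arm N (pt q.2)), (rest N n (pt q.1), rest N n (pt q.2))⟩) ?_ ?_
    (Finset.finite_toSet _)
  · rintro ⟨P, P'⟩ ⟨h1, h2, h3⟩
    have f1 := fw_pt h1
    have f2 := fw_pt h2
    have t1 : tau N (pt P) ≤ n := tau_le hn f1
    have t2 : tau N (pt P') ≤ n := tau_le hn f2
    simp only [Finset.coe_sigma, Set.mem_sigma_iff, Finset.mem_coe, mem_avF, Finset.mem_product, mem_wk,
      arm_length]
    refine ⟨⟨arm_mem hn f1, arm_mem hn f2, ?_⟩, rest_mem hn f1, rest_mem hn f2⟩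
    intro z hz hz'
    unfold arm at hz hz'
    simp only [List.mem_map, List.mem_range] at hz'
    obtain ⟨j, hj, rfl⟩ := hz'
    rw [List.range_succ_eq_map, List.map_cons, List.tail_cons, List.map_map] at hz
    simp only [List.mem_map, List.mem_range, Function.comp_apply] at hz
    obtain ⟨i, hi, he⟩ := hz
    exact h3 (i + 1) (by omega) j (by omega) (by omega) he
  · rintro ⟨P, P'⟩ ⟨h1, h2, h3⟩ ⟨Q, Q'⟩ ⟨g1, g2, g3⟩ heq
    simp only [Sigma.mk.injEq, Prod.mk.injEq, heq_eq_eq] at heq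
    obtain ⟨⟨e1, e2⟩, e3, e4⟩ := heq
    have k1 : P = Q := pt_ext h1.1 g1.1 fun i hi => arm_rest_inj hn (fw_pt h1) e1 e3 hi
    have k2 : P' = Q' := pt_ext h2.1 g2.1 fun i hi => arm_rest_inj hn (fw_pt h2) e2 e4 hi
    rw [k1, k2]

lemma Z2_sum (N : ℕ) : Z2 N = ∑ q ∈ avF N, xc ^ (q.1.length - 1) * xc ^ (q.2.length - 1) := by
  rw [← Z2_tsum]
  have h : AvoidZ N = ↑(avF N) := by ext q; exact mem_avF.symm
  rw [h, Finset.tsum_subtype' (avF N)
    (fun q : List (ℤ × ℤ) × List (ℤ × ℤ) => xc ^ (q.1.length - 1) * xc ^ (q.2.length - 1))]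

lemma Z1_sum (N : ℕ) : Z1 N = ∑ R ∈ armAll N, xc ^ (R.length - 1) := by
  rw [← Z1_tsum]
  have h : ArmZ N = ↑(armAll N) := by ext R; exact mem_armAll.symm
  rw [h, Finset.tsum_subtype' (armAll N) (fun R => xc ^ (R.length - 1))]

lemma armLen {N : ℕ} {R : List (ℤ × ℤ)} (h : R ∈ ArmZ N) : R.length - 1 ≤ Bn N ∧ 1 ≤ R.length := by
  classical
  have h1 : R.dropLast.Nodup := h.2.2.1.sublist (List.dropLast_sublist R)
  have h2 : (R.dropLast).toFinset ⊆ box N := by
    intro x hx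
    exact near_box (Or.inl (h.2.2.2.1 x (List.mem_toFinset.1 hx)))
  have h3 := Finset.card_le_card h2
  rw [List.toFinset_card_of_nodup h1, List.length_dropLast] at h3
  obtain ⟨X, hX, -⟩ := armZ_cons h
  exact ⟨h3, by rw [hX]; simp⟩

lemma arm_walk {N : ℕ} {R : List (ℤ × ℤ)} (h : R ∈ ArmZ N) : IsWalk (R.length - 1) R.reverse := by
  have hl := armLen h
  refine ⟨?_, List.nodup_reverse.2 h.2.2.1, ?_, ?_⟩
  · rw [List.length_reverse]; omega
  · exact List.isChain_reverse.2 (List.IsChain.imp (fun _ _ hh => hh.symm) h.2.1)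
  · rw [List.getLast?_reverse]; exact h.1

lemma arm_count (N k : ℕ) : ((armAll N).filter fun R => R.length - 1 = k).card ≤ an k := by
  classical
  rw [← card_wk]
  refine Finset.card_le_card_of_injOn (fun R => R.reverse) ?_ ?_
  · intro R hR
    simp only [Finset.coe_filter, Set.mem_ofPred_eq] at hR
    have := arm_walk (mem_armAll.1 hR.1)
    rw [hR.2] at this
    exact mem_wk.2 this
  · intro R _ R' _ h
    exact List.reverse_injective h

/-- The mass of the arms. -/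
lemma Z1_le {N n : ℕ} (hn : Bn N ≤ n) {K : ℝ} (hK : ∀ m ≤ n, (an m : ℝ) ≤ K * mu ^ m) :
    Z1 N ≤ (n + 1) * K := by
  classical
  have hx := xc_pos
  rw [Z1_sum, ← Finset.sum_fiberwise_of_maps_to (g := fun R : List (ℤ × ℤ) => R.length - 1)
    (t := Finset.range (n + 1))]
  · have h : ∀ k ∈ Finset.range (n + 1),
        ∑ R ∈ (armAll N).filter (fun R => R.length - 1 = k), xc ^ (R.length - 1) ≤ K := by
      intro k hk
      rw [Finset.mem_range] at hk
      have h1 : ∑ R ∈ (armAll N).filter (fun R => R.length - 1 = k), xc ^ (R.length - 1) =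
          ((armAll N).filter fun R => R.length - 1 = k).card * xc ^ k := by
        rw [← nsmul_eq_mul, ← Finset.sum_const]
        refine Finset.sum_congr rfl fun R hR => ?_
        rw [(Finset.mem_filter.1 hR).2]
      rw [h1]
      have h2 : (((armAll N).filter fun R => R.length - 1 = k).card : ℝ) ≤ K * mu ^ k :=
        (by exact_mod_cast arm_count N k : (((armAll N).filter fun R => R.length - 1 = k).card : ℝ) ≤ an k).trans
          (hK k (by omega))
      have h3 : xc ^ k * mu ^ k = 1 := by rw [← mul_pow, xc_mu, one_pow]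
      calc _ ≤ K * mu ^ k * xc ^ k := mul_le_mul_of_nonneg_right h2 (by positivity)
        _ = K * (xc ^ k * mu ^ k) := by ring
        _ = K := by rw [h3, mul_one]
    refine (Finset.sum_le_sum h).trans (le_of_eq ?_)
    rw [Finset.sum_const, Finset.card_range, nsmul_eq_mul]
    push_cast
    ring
  · intro R hR
    have := armLen (mem_armAll.1 hR)
    rw [Finset.mem_range]
    omega

/-- The mass of the avoiding pairs. -/
lemma le_Z2 {N n : ℕ} (hn : Bn N ≤ n) {K : ℝ} (hK0 : 0 ≤ K) (hK : ∀ m ≤ n, (an m : ℝ) ≤ K * mu ^ m) :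
    1 ≤ K ^ 2 * Z2 N := by
  have hx := xc_pos
  have hmu := mu_pos
  have h0 : mu ^ (2 * n) ≤ (an (2 * n) : ℝ) := by
    rcases Nat.eq_zero_or_pos n with rfl | h
    · simp [an_zero]
    · exact mu_pow_le _ (by omega)
  have h1 : (an (2 * n) : ℝ) ≤ ∑ q ∈ avF N, (an (n - (q.1.length - 1)) : ℝ) * an (n - (q.2.length - 1)) := by
    exact_mod_cast count hn
  have h2 : ∀ q ∈ avF N, (an (n - (q.1.length - 1)) : ℝ) * an (n - (q.2.length - 1)) ≤
      K ^ 2 * mu ^ (2 * n) * (xc ^ (q.1.length - 1) * xc ^ (q.2.length - 1)) := by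
    intro q hq
    rw [mem_avF] at hq
    have l1 := armLen hq.1
    have l2 := armLen hq.2.1
    have e : ∀ k ≤ n, mu ^ (n - k) = mu ^ n * xc ^ k := by
      intro k hk
      have h3 : xc ^ k * mu ^ k = 1 := by rw [← mul_pow, xc_mu, one_pow]
      calc mu ^ (n - k) = mu ^ (n - k) * (xc ^ k * mu ^ k) := by rw [h3, mul_one]
        _ = (mu ^ (n - k) * mu ^ k) * xc ^ k := by ring
        _ = mu ^ n * xc ^ k := by rw [← pow_add, Nat.sub_add_cancel hk]
    have b1 := hK (n - (q.1.length - 1)) (by omega)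
    have b2 := hK (n - (q.2.length - 1)) (by omega)
    rw [e _ (by omega)] at b1 b2
    calc _ ≤ (K * (mu ^ n * xc ^ (q.1.length - 1))) * (K * (mu ^ n * xc ^ (q.2.length - 1))) :=
          mul_le_mul b1 b2 (by positivity) (by positivity)
      _ = _ := by rw [two_mul, pow_add]; ring
  have h3 : mu ^ (2 * n) ≤ K ^ 2 * mu ^ (2 * n) * Z2 N := by
    rw [Z2_sum, Finset.mul_sum]
    exact h0.trans (h1.trans (Finset.sum_le_sum h2))
  have h4 : 0 < mu ^ (2 * n) := by positivity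
  have h5 : mu ^ (2 * n) * 1 ≤ mu ^ (2 * n) * (K ^ 2 * Z2 N) := by linarith
  exact le_of_mul_le_mul_left h5 h4

/-- The lower bound of the probability. -/
theorem prob_low {N n : ℕ} (hn : Bn N ≤ n) {K : ℝ} (hK : ∀ m ≤ n, (an m : ℝ) ≤ K * mu ^ m) :
    1 / (K ^ 4 * (n + 1) ^ 2) ≤ Prob N := by
  have hK1 : 1 ≤ K := by
    have := hK 0 (Nat.zero_le _)
    simpa [an_zero] using this
  have h1 := le_Z2 hn (by linarith) hK
  have h2 := Z1_le hn hK
  obtain ⟨c, hc, hZ⟩ := Z1_growth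
  have hz : 0 < Z1 N := lt_of_lt_of_le (by positivity) (hZ N)
  have hP : Prob N = Z2 N / (Z1 N * Z1 N) := by unfold Prob; rw [avoid_sum, Z_eq]
  have hn0 : (0 : ℝ) ≤ n := Nat.cast_nonneg n
  rw [hP, div_le_div_iff₀ (by positivity) (by positivity)]
  have hZ2 : 0 ≤ Z2 N := by
    by_contra hneg
    push Not at hneg
    nlinarith [mul_nonneg (sq_nonneg K) (le_of_lt (neg_pos.2 hneg))]
  have h3 : Z1 N * Z1 N ≤ ((n + 1) * K) * ((n + 1) * K) := mul_le_mul h2 h2 hz.le (by positivity)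
  calc 1 * (Z1 N * Z1 N) ≤ 1 * (((n + 1) * K) * ((n + 1) * K)) := mul_le_mul_of_nonneg_left h3 (by norm_num)
    _ ≤ (K ^ 2 * Z2 N) * (((n + 1) * K) * ((n + 1) * K)) := mul_le_mul_of_nonneg_right h1 (by positivity)
    _ = Z2 N * (K ^ 4 * (n + 1) ^ 2) := by ring

lemma Bn_eq (N : ℕ) : Bn N = (6 * N + 7) ^ 2 := by
  unfold Bn box
  rw [Finset.card_product, Int.card_Icc]
  have : (3 * (N : ℤ) + 3 + 1 - -(3 * N + 3)).toNat = 6 * N + 7 := by omega
  rw [this, sq]

/-- General form: if `a_n ≤ f(n) μ^n` for `n ≥ 1` with `f` monotone and at least `1`, then the probability is at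
least `1 / (f(169 N^2)^4 (170 N^2)^2)`. -/
theorem of_fun {f : ℕ → ℝ} (hf : Monotone f) (hf1 : ∀ n, 1 ≤ f n)
    (h : ∀ n : ℕ, 1 ≤ n → (a n : ℝ) ≤ f n * muL ^ n) {N : ℕ} (hN : 1 ≤ N) :
    1 / (f (169 * N ^ 2) ^ 4 * (170 * (N : ℝ) ^ 2) ^ 2) ≤ Prob N := by
  have hmu := mu_pos
  have hN1 : (1 : ℝ) ≤ N := by exact_mod_cast hN
  have hBn : Bn N ≤ 169 * N ^ 2 := by
    rw [Bn_eq]
    nlinarith
  have hK : ∀ m ≤ 169 * N ^ 2, (an m : ℝ) ≤ f (169 * N ^ 2) * mu ^ m := by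
    intro m hm
    rcases Nat.eq_zero_or_pos m with rfl | hm0
    · rw [an_zero, pow_zero, mul_one, Nat.cast_one]
      exact hf1 _
    · have h1 := h m hm0
      rw [a_eq, muL_eq hw_quant] at h1
      exact h1.trans (mul_le_mul_of_nonneg_right (hf hm) (by positivity))
  refine le_trans ?_ (prob_low hBn hK)
  have hf0 : 0 < f (169 * N ^ 2) := lt_of_lt_of_le one_pos (hf1 _)
  refine one_div_le_one_div_of_le (by positivity) (mul_le_mul_of_nonneg_left ?_ (by positivity))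
  push_cast
  have f2 : (169 * (N : ℝ) ^ 2 + 1) ≤ 170 * (N : ℝ) ^ 2 := by nlinarith
  exact pow_le_pow_left₀ (by positivity) f2 2

/-- A polynomial bound of `a_n` gives a polynomial lower bound of the probability. -/
theorem of_poly (h : ∃ C : ℝ, ∀ n : ℕ, 1 ≤ n → (a n : ℝ) ≤ C * (n : ℝ) ^ C * muL ^ n) :
    ∃ C : ℝ, 0 < C ∧ ∀ N : ℕ, 1 ≤ N → (N : ℝ) ^ (-C) / C ≤ Prob N := by
  obtain ⟨C0, h⟩ := h
  set C : ℝ := max C0 1 with hC
  have hC1 : 1 ≤ C := le_max_right _ _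
  have hmu := mu_pos
  have hb : ∀ n : ℕ, 1 ≤ n → (an n : ℝ) ≤ C * (n : ℝ) ^ C * mu ^ n := by
    intro n hn
    have h1 := h n hn
    rw [a_eq, muL_eq hw_quant] at h1
    refine h1.trans (mul_le_mul_of_nonneg_right ?_ (by positivity))
    have hn1 : (1 : ℝ) ≤ n := by exact_mod_cast hn
    have h2 : (n : ℝ) ^ C0 ≤ (n : ℝ) ^ C := Real.rpow_le_rpow_of_exponent_le hn1 (le_max_left _ _)
    exact mul_le_mul (le_max_left _ _) h2 (by positivity) (by positivity)
  refine ⟨C ^ 4 * 169 ^ (4 * C) * 170 ^ 2 + (8 * C + 4), by positivity, fun N hN => ?_⟩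
  set A : ℝ := C ^ 4 * 169 ^ (4 * C) * 170 ^ 2 + (8 * C + 4) with hA
  have hN1 : (1 : ℝ) ≤ N := by exact_mod_cast hN
  have hN0 : (0 : ℝ) < N := by linarith
  have hpow : (1 : ℝ) ≤ (169 : ℝ) ^ (4 * C) := Real.one_le_rpow (by norm_num) (by positivity)
  have hBn : Bn N ≤ 169 * N ^ 2 := by
    rw [Bn_eq]
    nlinarith
  have hK : ∀ m ≤ 169 * N ^ 2, (an m : ℝ) ≤ (C * ((169 : ℝ) * N ^ 2) ^ C) * mu ^ m := by
    intro m hm
    have h1 : (1 : ℝ) ≤ (169 : ℝ) * N ^ 2 := by nlinarith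
    rcases Nat.eq_zero_or_pos m with rfl | hm0
    · rw [an_zero, pow_zero, mul_one, Nat.cast_one]
      calc (1 : ℝ) = 1 * 1 := by ring
        _ ≤ C * ((169 : ℝ) * N ^ 2) ^ C := mul_le_mul hC1 (Real.one_le_rpow h1 (by positivity)) (by norm_num)
            (by positivity)
    · refine (hb m hm0).trans (mul_le_mul_of_nonneg_right (mul_le_mul_of_nonneg_left ?_ (by positivity))
        (by positivity))
      refine Real.rpow_le_rpow (by positivity) ?_ (by positivity)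
      exact_mod_cast hm
  refine le_trans ?_ (prob_low hBn hK)
  have e1 : ((169 : ℝ) * N ^ 2) ^ C = 169 ^ C * (N : ℝ) ^ (2 * C) := by
    rw [Real.mul_rpow (by norm_num) (by positivity), ← Real.rpow_natCast (N : ℝ) 2, ← Real.rpow_mul hN0.le]
    norm_num
  have e2 : (C * ((169 : ℝ) * N ^ 2) ^ C) ^ 4 = C ^ 4 * 169 ^ (4 * C) * (N : ℝ) ^ (8 * C) := by
    rw [e1]
    have f1 : ((169 : ℝ) ^ C) ^ 4 = 169 ^ (4 * C) := by
      rw [← Real.rpow_natCast, ← Real.rpow_mul (by norm_num)]; congr 1; push_cast; ring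
    have f2 : ((N : ℝ) ^ (2 * C)) ^ 4 = (N : ℝ) ^ (8 * C) := by
      rw [← Real.rpow_natCast, ← Real.rpow_mul hN0.le]; congr 1; push_cast; ring
    rw [mul_pow, mul_pow, f1, f2]; ring
  have e3 : (((169 * N ^ 2 : ℕ) : ℝ) + 1) ^ 2 ≤ 170 ^ 2 * (N : ℝ) ^ (4 : ℝ) := by
    have f1 : (N : ℝ) ^ (4 : ℝ) = (N : ℝ) ^ 4 := by
      rw [← Real.rpow_natCast]; norm_num
    rw [f1]
    push_cast
    have f2 : (169 * (N : ℝ) ^ 2 + 1) ≤ 170 * (N : ℝ) ^ 2 := by nlinarith
    calc (169 * (N : ℝ) ^ 2 + 1) ^ 2 ≤ (170 * (N : ℝ) ^ 2) ^ 2 := pow_le_pow_left₀ (by positivity) f2 2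
      _ = _ := by ring
  rw [div_le_div_iff₀ (by positivity) (by positivity), one_mul, e2]
  have h4 : C ^ 4 * 169 ^ (4 * C) * (N : ℝ) ^ (8 * C) * (((169 * N ^ 2 : ℕ) : ℝ) + 1) ^ 2 ≤
      A * (N : ℝ) ^ A := by
    calc C ^ 4 * 169 ^ (4 * C) * (N : ℝ) ^ (8 * C) * (((169 * N ^ 2 : ℕ) : ℝ) + 1) ^ 2
        ≤ C ^ 4 * 169 ^ (4 * C) * (N : ℝ) ^ (8 * C) * (170 ^ 2 * (N : ℝ) ^ (4 : ℝ)) :=
          mul_le_mul_of_nonneg_left e3 (by positivity)
      _ = C ^ 4 * 169 ^ (4 * C) * 170 ^ 2 * ((N : ℝ) ^ (8 * C + 4)) := by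
          rw [Real.rpow_add hN0]; ring
      _ ≤ A * (N : ℝ) ^ A := by
          refine mul_le_mul ?_ (Real.rpow_le_rpow_of_exponent_le hN1 ?_) (by positivity) (by positivity)
          · rw [hA]; nlinarith
          · rw [hA]
            have : 0 ≤ C ^ 4 * 169 ^ (4 * C) * 170 ^ 2 := by positivity
            linarith
  calc (N : ℝ) ^ (-A) * (C ^ 4 * 169 ^ (4 * C) * (N : ℝ) ^ (8 * C) * (((169 * N ^ 2 : ℕ) : ℝ) + 1) ^ 2)
      ≤ (N : ℝ) ^ (-A) * (A * (N : ℝ) ^ A) := mul_le_mul_of_nonneg_left h4 (by positivity)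
    _ = A * ((N : ℝ) ^ (-A) * (N : ℝ) ^ A) := by ring
    _ = A := by rw [← Real.rpow_add hN0]; simp

/-- The bound `a_n ≤ μ^n exp(C n^ε)` gives the lower bound `exp(-C N^(2ε))` of the probability. -/
theorem of_exp {ε : ℝ} (hε : 0 < ε) (h : ∃ C : ℝ, ∀ n : ℕ, 1 ≤ n → (a n : ℝ) ≤ muL ^ n * Real.exp (C * (n : ℝ) ^ ε)) :
    ∃ C : ℝ, 0 < C ∧ ∀ N : ℕ, 1 ≤ N → Real.exp (-(C * (N : ℝ) ^ (2 * ε))) ≤ Prob N := by
  obtain ⟨C0, h⟩ := h
  set C : ℝ := max C0 1 with hC
  have hC1 : 1 ≤ C := le_max_right _ _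
  have hmu := mu_pos
  have hb : ∀ n : ℕ, 1 ≤ n → (an n : ℝ) ≤ Real.exp (C * (n : ℝ) ^ ε) * mu ^ n := by
    intro n hn
    have h1 := h n hn
    rw [a_eq, muL_eq hw_quant, mul_comm] at h1
    refine h1.trans (mul_le_mul_of_nonneg_right (Real.exp_le_exp.2 ?_) (by positivity))
    exact mul_le_mul_of_nonneg_right (le_max_left _ _) (by positivity)
  -- `log` is at most a power
  obtain ⟨D, hD0, hD⟩ : ∃ D : ℝ, 0 ≤ D ∧ ∀ x : ℝ, 1 ≤ x → Real.log x ≤ D * x ^ (2 * ε) := by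
    refine ⟨1 / (2 * ε), by positivity, fun x hx => ?_⟩
    have := Real.log_le_rpow_div (x := x) (by linarith) (show 0 < 2 * ε by positivity)
    calc Real.log x ≤ x ^ (2 * ε) / (2 * ε) := this
      _ = _ := by ring
  refine ⟨4 * C * 169 ^ ε + 2 * Real.log 170 + 4 * D, by positivity, fun N hN => ?_⟩
  have hN1 : (1 : ℝ) ≤ N := by exact_mod_cast hN
  have hN0 : (0 : ℝ) < N := by linarith
  have hBn : Bn N ≤ 169 * N ^ 2 := by
    rw [Bn_eq]
    nlinarith
  have hK : ∀ m ≤ 169 * N ^ 2, (an m : ℝ) ≤ Real.exp (C * ((169 : ℝ) * N ^ 2) ^ ε) * mu ^ m := by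
    intro m hm
    rcases Nat.eq_zero_or_pos m with rfl | hm0
    · rw [an_zero, pow_zero, mul_one, Nat.cast_one]
      exact Real.one_le_exp (by positivity)
    · refine (hb m hm0).trans (mul_le_mul_of_nonneg_right (Real.exp_le_exp.2 (mul_le_mul_of_nonneg_left ?_
        (by positivity))) (by positivity))
      refine Real.rpow_le_rpow (by positivity) ?_ (by positivity)
      exact_mod_cast hm
  refine le_trans ?_ (prob_low hBn hK)
  have e1 : ((169 : ℝ) * N ^ 2) ^ ε = 169 ^ ε * (N : ℝ) ^ (2 * ε) := by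
    rw [Real.mul_rpow (by norm_num) (by positivity), ← Real.rpow_natCast (N : ℝ) 2, ← Real.rpow_mul hN0.le]
    norm_num
  have e2 : Real.exp (C * ((169 : ℝ) * N ^ 2) ^ ε) ^ 4 = Real.exp (4 * C * 169 ^ ε * (N : ℝ) ^ (2 * ε)) := by
    rw [e1, ← Real.exp_nat_mul]; congr 1; push_cast; ring
  have ht : (1 : ℝ) ≤ (N : ℝ) ^ (2 * ε) := Real.one_le_rpow hN1 (by positivity)
  have e3 : (((169 * N ^ 2 : ℕ) : ℝ) + 1) ^ 2 ≤ Real.exp ((2 * Real.log 170 + 4 * D) * (N : ℝ) ^ (2 * ε)) := by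
    push_cast
    have f2 : (169 * (N : ℝ) ^ 2 + 1) ≤ 170 * (N : ℝ) ^ 2 := by nlinarith
    calc (169 * (N : ℝ) ^ 2 + 1) ^ 2 ≤ (170 * (N : ℝ) ^ 2) ^ 2 := pow_le_pow_left₀ (by positivity) f2 2
      _ = Real.exp (2 * Real.log 170 + 4 * Real.log N) := by
          rw [Real.exp_add]
          have g1 : Real.exp (2 * Real.log 170) = 170 ^ 2 := by
            rw [show (2 : ℝ) * Real.log 170 = ((2 : ℕ) : ℝ) * Real.log 170 by norm_num, Real.exp_nat_mul,
              Real.exp_log (by norm_num)]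
          have g2 : Real.exp (4 * Real.log N) = (N : ℝ) ^ 4 := by
            rw [show (4 : ℝ) * Real.log N = ((4 : ℕ) : ℝ) * Real.log N by norm_num, Real.exp_nat_mul,
              Real.exp_log hN0]
          rw [g1, g2]; ring
      _ ≤ _ := by
          refine Real.exp_le_exp.2 ?_
          have k1 := hD N hN1
          have k2 : 0 ≤ Real.log 170 := Real.log_nonneg (by norm_num)
          nlinarith
  rw [e2, Real.exp_neg, ← one_div]
  refine one_div_le_one_div_of_le (by positivity) ?_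
  calc Real.exp (4 * C * 169 ^ ε * (N : ℝ) ^ (2 * ε)) * (((169 * N ^ 2 : ℕ) : ℝ) + 1) ^ 2
      ≤ Real.exp (4 * C * 169 ^ ε * (N : ℝ) ^ (2 * ε)) *
        Real.exp ((2 * Real.log 170 + 4 * D) * (N : ℝ) ^ (2 * ε)) :=
        mul_le_mul_of_nonneg_left e3 (Real.exp_pos _).le
    _ = _ := by rw [← Real.exp_add]; congr 1; ring

end Pool.Agent.RTA.Low
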