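import Mathlib

/-!
# The splitting number at a regular uncountable cardinal: the combinatorial core

If `2 ^ α = α⁺` for all infinite `α < κ`, and `Ξ` is a set of `κ⁺⁺` many subsets of `κ`, then there
is a splitting family consisting of at most `κ⁺⁺` subsets of `κ`.
-/

universe u

open Cardinal Filter Set Order

namespace Pool.Agent.Hhelper77.Split

/-- A total relation on the subsets of `I` all of whose initial segments inject into `I`. -/
theorem exists_coding {I : Type u} [Infinite I] (hI : (2 : Cardinal.{u}) ^ #I = succ #I) :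
    ∃ (R : Set I → Set I → Prop) (G : Set I → Set I → I),
      (∀ Y Z, Y ≠ Z → R Y Z ∨ R Z Y) ∧
      ∀ Y Z Z', R Z Y → R Z' Y → G Y Z = G Y Z' → Z = Z' := by
  classical
  obtain ⟨R, wo, hR⟩ := exists_ord_eq (Set I)
  have key : ∀ Y : Set I, Nonempty ({Z // R Z Y} ↪ I) := by
    intro Y
    have h1 : #{Z // R Z Y} < #(Set I) := by
      have := card_typein_lt (r := R) Y hR
      rwa [Ordinal.card_typein] at this
    rw [mk_set, hI, lt_succ_iff] at h1
    exact h1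
  let e : ∀ Y : Set I, {Z // R Z Y} ↪ I := fun Y => (key Y).some
  refine ⟨R, fun Y Z => if h : R Z Y then e Y ⟨Z, h⟩ else Classical.arbitrary I, ?_, ?_⟩
  · intro Y Z hYZ
    rcases trichotomous_of R Y Z with h | h | h
    · exact Or.inl h
    · exact absurd h hYZ
    · exact Or.inr h
  · intro Y Z Z' h h' heq
    simp only [dif_pos h, dif_pos h'] at heq
    have := (e Y).injective heq
    exact congrArg Subtype.val this

section

variable {K : Type u} [LinearOrder K] [WellFoundedLT K] {κ : Cardinal.{u}}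

omit [WellFoundedLT K] in
/-- The coding of the subsets of `Iio β`, phrased for subsets of `K`. -/
theorem exists_coding_below
    (hIio : ∀ a : K, #(Iio a) < κ)
    (hGCH : ∀ α : Cardinal.{u}, ℵ₀ ≤ α → α < κ → (2 : Cardinal.{u}) ^ α = succ α) (β : K) :
    ∃ (R : Set K → Set K → Prop) (G : Set K → Set K → K), Infinite (Iio β) →
      (∀ Y Z, G Y Z < β) ∧
      (∀ Y Z, Y ∩ Iio β ≠ Z ∩ Iio β → R Y Z ∨ R Z Y) ∧
      ∀ Y Z Z', R Z Y → R Z' Y → G Y Z = G Y Z' → Z ∩ Iio β = Z' ∩ Iio β := by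
  by_cases hinf : Infinite (Iio β)
  · obtain ⟨R, G, hR, hG⟩ := exists_coding (I := Iio β)
      (hGCH _ (infinite_iff.1 hinf) (hIio β))
    let p : Set K → Set (Iio β) := fun Y => Subtype.val ⁻¹' Y
    have hp : ∀ Y Z : Set K, p Y = p Z ↔ Y ∩ Iio β = Z ∩ Iio β := by
      intro Y Z
      simp only [p, Subtype.preimage_val_eq_preimage_val_iff]
      rw [inter_comm, inter_comm (Iio β)]
    refine ⟨fun Y Z => R (p Y) (p Z), fun Y Z => (G (p Y) (p Z) : K), fun _ => ⟨?_, ?_, ?_⟩⟩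
    · intro Y Z
      exact (G (p Y) (p Z)).2
    · intro Y Z h
      exact hR _ _ (fun h' => h ((hp _ _).1 h'))
    · intro Y Z Z' h h' heq
      exact (hp _ _).1 (hG _ _ _ h h' (Subtype.ext heq))
  · exact ⟨fun _ _ => True, fun _ _ => β, fun h => absurd h hinf⟩

/-- The combinatorial core. -/
theorem exists_small_splitting (hκ : κ.IsRegular) (hunc : ℵ₀ < κ) (hK : #K = κ)
    (hIio : ∀ a : K, #(Iio a) < κ)
    (hGCH : ∀ α : Cardinal.{u}, ℵ₀ ≤ α → α < κ → (2 : Cardinal.{u}) ^ α = succ α)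
    {Ξ : Type u} (hΞ : #Ξ = succ (succ κ)) (X : Ξ → Set K) (hX : Function.Injective X) :
    ∃ 𝒮 : Set (Set K), #𝒮 ≤ succ (succ κ) ∧
      ∀ A : Set K, #A = κ → ∃ S ∈ 𝒮, #(A ∩ S : Set K) = κ ∧ #(A \ S : Set K) = κ := by
  classical
  choose R G hRG using fun β : K => exists_coding_below hIio hGCH β
  let F : List (Ξ × Ξ) → K → K := fun l α => l.foldr (fun p β => G β (X p.2) (X p.1)) α
  have hF : ∀ p l α, F (p :: l) α = G (F l α) (X p.2) (X p.1) := fun _ _ _ => rfl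
  let J := List (Ξ × Ξ) × (K ⊕ K ⊕ Ξ × Ξ)
  let 𝒯 : J → Set K := fun j => match j with
    | (l, Sum.inl β) => {α | β < F l α}
    | (l, Sum.inr (Sum.inl γ)) => {α | F l α = γ}
    | (l, Sum.inr (Sum.inr p)) => {α | R (F l α) (X p.1) (X p.2)}
  have hinfκ : ℵ₀ ≤ κ := hunc.le
  have hΞinf : ℵ₀ ≤ #Ξ := by
    rw [hΞ]; exact (hinfκ.trans (le_succ κ)).trans (le_succ _)
  have : Infinite Ξ := infinite_iff.2 hΞinf
  have hΞΞ : #(Ξ × Ξ) = #Ξ := by
    rw [mk_prod, lift_id, mul_eq_self hΞinf]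
  have hJ : #J ≤ succ (succ κ) := by
    have h1 : #(List (Ξ × Ξ)) = #Ξ := by rw [mk_list_eq_mk, hΞΞ]
    have hK' : #K ≤ #Ξ := by
      rw [hK, hΞ]; exact (le_succ κ).trans (le_succ _)
    have h2 : #(K ⊕ K ⊕ Ξ × Ξ) ≤ #Ξ := by
      rw [mk_sum, mk_sum, lift_id, lift_id, lift_id, hΞΞ]
      calc #K + (#K + #Ξ) ≤ #Ξ + (#Ξ + #Ξ) := by gcongr
        _ = #Ξ := by rw [add_eq_self hΞinf, add_eq_self hΞinf]
    calc #J = #(List (Ξ × Ξ)) * #(K ⊕ K ⊕ Ξ × Ξ) := by
          rw [mk_prod, lift_id, lift_id]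
      _ ≤ #Ξ * #Ξ := by rw [h1]; gcongr
      _ = #Ξ := mul_eq_self hΞinf
      _ = _ := hΞ
  refine ⟨range 𝒯, mk_range_le.trans hJ, ?_⟩
  intro A hA
  by_contra hcon
  push Not at hcon
  -- the filter
  set 𝒰 : Filter K := cocardinal K hκ ⊓ 𝓟 A with h𝒰
  have : 𝒰.NeBot := cocardinal_inf_principal_neBot_iff.2 hA.ge
  have : CardinalInterFilter 𝒰 κ := by
    rw [h𝒰]; infer_instance
  have : CountableInterFilter 𝒰 := CardinalInterFilter.toCountableInterFilter 𝒰 hunc
  have hdec : ∀ j : J, (∀ᶠ α in 𝒰, α ∈ 𝒯 j) ∨ (∀ᶠ α in 𝒰, α ∉ 𝒯 j) := by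
    intro j
    have h1 := hcon (𝒯 j) (mem_range_self j)
    by_cases h2 : #(A ∩ 𝒯 j : Set K) = κ
    · left
      have h3 : #(A \ 𝒯 j : Set K) < κ :=
        lt_of_le_of_ne ((mk_le_mk_of_subset sdiff_subset).trans hA.le) (h1 h2)
      rw [h𝒰, eventually_inf_principal, eventually_cocardinal]
      refine lt_of_le_of_lt (mk_le_mk_of_subset ?_) h3
      intro x hx
      simp only [mem_ofPred_eq, Classical.not_imp] at hx
      exact hx
    · right
      have h3 : #(A ∩ 𝒯 j : Set K) < κ :=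
        lt_of_le_of_ne ((mk_le_mk_of_subset inter_subset_left).trans hA.le) h2
      rw [h𝒰, eventually_inf_principal, eventually_cocardinal]
      refine lt_of_le_of_lt (mk_le_mk_of_subset ?_) h3
      intro x hx
      simp only [mem_ofPred_eq, Classical.not_imp, not_not] at hx
      exact hx
  -- constants are bounded
  have hbdd : ∀ β : K, ∀ᶠ α in 𝒰, β < α := by
    intro β
    rw [h𝒰]
    apply Filter.Eventually.filter_mono inf_le_left
    rw [eventually_cocardinal]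
    have : {x | ¬ β < x} = insert β (Iio β) := by
      ext x; simp [le_iff_lt_or_eq, or_comm]
    rw [this]
    calc #(insert β (Iio β) : Set K) ≤ #(Iio β) + 1 := mk_insert_le
      _ < κ := add_lt_of_lt hinfκ (hIio β) (one_lt_aleph0.trans hunc)
  -- well-foundedness
  have hwf : WellFounded (fun l l' : List (Ξ × Ξ) => ∀ᶠ α in 𝒰, F l α < F l' α) := by
    rw [wellFounded_iff_isEmpty_descending_chain]
    refine ⟨?_⟩
    rintro ⟨f, hf⟩
    have h1 : ∀ᶠ α in 𝒰, ∀ n, F (f (n + 1)) α < F (f n) α := eventually_countable_forall.2 hf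
    obtain ⟨α, hα⟩ := h1.exists
    have h2 := wellFounded_lt (α := K)
    rw [wellFounded_iff_isEmpty_descending_chain] at h2
    exact h2.false ⟨fun n => F (f n) α, hα⟩
  let M : Set (List (Ξ × Ξ)) := {l | ∀ β, ∀ᶠ α in 𝒰, β < F l α}
  have hM : M.Nonempty := ⟨[], hbdd⟩
  let l := hwf.min M hM
  have hl : l ∈ M := hwf.min_mem M hM
  have hl' : ∀ β, ∀ᶠ α in 𝒰, β < F l α := hl
  have hinf : ∀ᶠ α in 𝒰, Infinite (Iio (F l α)) := by
    have : Infinite K := infinite_iff.2 (hinfκ.trans hK.ge)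
    have h1 : ∀ᶠ α in 𝒰, ∀ n : ℕ, Infinite.natEmbedding K n < F l α :=
      eventually_countable_forall.2 fun n => hl' _
    filter_upwards [h1] with α hα
    exact Infinite.of_injective (fun n : ℕ => (⟨Infinite.natEmbedding K n, hα n⟩ : Iio (F l α)))
      (fun m n h => (Infinite.natEmbedding K).injective (congrArg Subtype.val h))
  have hRGl : ∀ᶠ α in 𝒰, (∀ Y Z, G (F l α) Y Z < F l α) ∧
      (∀ Y Z, Y ∩ Iio (F l α) ≠ Z ∩ Iio (F l α) → R (F l α) Y Z ∨ R (F l α) Z Y) ∧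
      ∀ Y Z Z', R (F l α) Z Y → R (F l α) Z' Y → G (F l α) Y Z = G (F l α) Y Z' →
        Z ∩ Iio (F l α) = Z' ∩ Iio (F l α) := by
    filter_upwards [hinf] with α hα using hRG _ hα
  -- functions below the minimal one are almost constant
  have hconst : ∀ p : Ξ × Ξ, ∃ γ, ∀ᶠ α in 𝒰, F (p :: l) α = γ := by
    intro p
    have hlt : ∀ᶠ α in 𝒰, F (p :: l) α < F l α := by
      filter_upwards [hRGl] with α hα using hα.1 _ _
    have hnM : (p :: l) ∉ M := fun h => hwf.not_lt_min M h hlt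
    have : ∃ β, ¬ ∀ᶠ α in 𝒰, β < F (p :: l) α := by
      simpa [M] using hnM
    obtain ⟨β, hβ⟩ := this
    have hle : ∀ᶠ α in 𝒰, ¬ β < F (p :: l) α := by
      rcases hdec (p :: l, Sum.inl β) with h | h
      · exact absurd h hβ
      · exact h
    by_contra hne
    have h1 : ∀ γ, ∀ᶠ α in 𝒰, F (p :: l) α ≠ γ := by
      intro γ
      rcases hdec (p :: l, Sum.inr (Sum.inl γ)) with h | h
      · exact absurd ⟨γ, h⟩ hne
      · exact h
    have h2 : ∀ᶠ α in 𝒰, ∀ γ : Iio β, F (p :: l) α ≠ γ :=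
      (eventually_cardinal_forall (hIio β)).2 fun γ => h1 γ
    obtain ⟨α, h3, h4, h5⟩ := (hle.and (h2.and (h1 β))).exists
    rcases lt_or_eq_of_le (not_lt.1 h3) with h | h
    · exact h4 ⟨_, h⟩ rfl
    · exact h5 h
  choose c hc using hconst
  let prec : Ξ → Ξ → Prop := fun ξ η => ∀ᶠ α in 𝒰, R (F l α) (X ξ) (X η)
  have hdiff : ∀ ξ η, ξ ≠ η → ∀ᶠ α in 𝒰, X ξ ∩ Iio (F l α) ≠ X η ∩ Iio (F l α) := by
    intro ξ η hne
    have h1 : X ξ ≠ X η := fun h => hne (hX h)
    have h2 : ∃ δ, ¬ (δ ∈ X ξ ↔ δ ∈ X η) := by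
      by_contra h
      push Not at h
      exact h1 (Set.ext h)
    obtain ⟨δ, hδ⟩ := h2
    filter_upwards [hl' δ] with α hα heq
    apply hδ
    have := Set.ext_iff.1 heq δ
    simpa [hα] using this
  have htotal : ∀ ξ η, ξ ≠ η → prec ξ η ∨ prec η ξ := by
    intro ξ η hne
    rcases hdec (l, Sum.inr (Sum.inr (ξ, η))) with h | h
    · exact Or.inl h
    · right
      filter_upwards [h, hRGl, hdiff ξ η hne] with α h1 h2 h3
      rcases h2.2.1 _ _ h3 with h4 | h4
      · exact absurd h4 h1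
      · exact h4
  have hcard : ∀ η, #{ξ | prec ξ η} ≤ κ := by
    intro η
    rw [← hK]
    refine mk_le_of_injective (f := fun ξ : {ξ | prec ξ η} => c ((ξ : Ξ), η)) ?_
    rintro ⟨ξ, hξ⟩ ⟨ξ', hξ'⟩ heq
    by_contra hne
    have hne' : ξ ≠ ξ' := fun h => hne (Subtype.ext h)
    have heq' : c (ξ, η) = c (ξ', η) := heq
    have h1 : ∀ᶠ α in 𝒰, R (F l α) (X ξ) (X η) := hξ
    have h2 : ∀ᶠ α in 𝒰, R (F l α) (X ξ') (X η) := hξ'
    obtain ⟨α, h1, h2, h3, h4, h5, h6⟩ :=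
      (h1.and (h2.and (hRGl.and ((hdiff ξ ξ' hne').and
        ((hc (ξ, η)).and (hc (ξ', η))))))).exists
    apply h4
    apply h3.2.2 (X η) _ _ h1 h2
    rw [hF] at h5 h6
    rw [h5, h6, heq']
  -- final counting
  obtain ⟨T, hT⟩ := le_mk_iff_exists_set.1 (show succ κ ≤ #Ξ by rw [hΞ]; exact le_succ _)
  have hsinf : ℵ₀ ≤ succ κ := hinfκ.trans (le_succ κ)
  have hU : #(T ∪ ⋃ η ∈ T, {ξ | prec ξ η} : Set Ξ) < #Ξ := by
    rw [hΞ, lt_succ_iff]
    calc #(T ∪ ⋃ η ∈ T, {ξ | prec ξ η} : Set Ξ)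
        ≤ #T + #(⋃ η ∈ T, {ξ | prec ξ η} : Set Ξ) := mk_union_le _ _
      _ ≤ succ κ + succ κ * κ := by
          rw [hT]
          gcongr
          calc #(⋃ η ∈ T, {ξ | prec ξ η} : Set Ξ)
              ≤ #T * ⨆ η : T, #{ξ | prec ξ η} := by
                rw [biUnion_eq_iUnion]
                exact mk_iUnion_le _
            _ ≤ succ κ * κ := by
                rw [hT]
                gcongr
                exact ciSup_le' fun η => hcard η
      _ ≤ succ κ + succ κ * succ κ := by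
          gcongr
          exact le_succ κ
      _ = succ κ := by rw [mul_eq_self hsinf, add_eq_self hsinf]
  have hex : ∃ b, b ∉ (T ∪ ⋃ η ∈ T, {ξ | prec ξ η} : Set Ξ) := by
    by_contra h
    push Not at h
    have : (T ∪ ⋃ η ∈ T, {ξ | prec ξ η} : Set Ξ) = Set.univ := eq_univ_of_forall h
    rw [this, mk_univ] at hU
    exact lt_irrefl _ hU
  obtain ⟨b, hb⟩ := hex
  simp only [mem_union, mem_iUnion, mem_ofPred_eq, not_or, not_exists] at hb
  have hsub : T ⊆ {ξ | prec ξ b} := by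
    intro η hη
    have hne : η ≠ b := fun h => hb.1 (h ▸ hη)
    rcases htotal η b hne with h | h
    · exact h
    · exact absurd h (hb.2 η hη)
  have h1 : succ κ ≤ κ := by
    calc succ κ = #T := hT.symm
      _ ≤ #{ξ | prec ξ b} := mk_le_mk_of_subset hsub
      _ ≤ κ := hcard b
  exact absurd (lt_succ κ) (not_lt.2 h1)

end

end Pool.Agent.Hhelper77.Split
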