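import Pool.Agent.Hhelper77.Superstructure

/-!
Every set of atoms carries a superstructure (built inside `ZFSet`).
-/

universe u v w

namespace Pool.Agent.Hhelper77

open ZFSet

namespace SuperExists

variable (X : Type u)

/-- an injection of `X` into `ZFSet` -/
noncomputable def code (x : X) : ZFSet.{u} :=
  (Ordinal.typein (α := X) WellOrderingRel x).toZFSet

theorem code_injective : Function.Injective (code X) := by
  intro x y h
  exact Ordinal.typein_injective _ (Ordinal.toZFSet_injective h)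

/-- coding of atoms -/
noncomputable def at' (x : X) : ZFSet.{u} := ZFSet.pair ∅ (code X x)

/-- coding of sets -/
noncomputable def st' (z : ZFSet.{u}) : ZFSet.{u} := ZFSet.pair {∅} z

theorem at_ne_st (x : X) (z : ZFSet.{u}) : at' X x ≠ st' z := by
  intro h
  have := (ZFSet.pair_inj.1 h).1
  have h2 : (∅ : ZFSet.{u}) ∈ ({∅} : ZFSet.{u}) := by simp
  rw [← this] at h2
  exact ZFSet.notMem_empty _ h2

theorem st_inj {a b : ZFSet.{u}} (h : st' a = st' b) : a = b := (ZFSet.pair_inj.1 h).2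

/-- levels as `ZFSet`s -/
noncomputable def Lz : ℕ → ZFSet.{u}
  | 0 => ZFSet.range (at' X)
  | n + 1 => Lz n ∪ ZFSet.range (fun s : Shrink.{u} {z : ZFSet.{u} // z ∈ ZFSet.powerset (Lz n)} =>
      st' ((equivShrink _).symm s).1)

theorem mem_Lz_succ {n : ℕ} {a : ZFSet.{u}} :
    a ∈ Lz X (n + 1) ↔ a ∈ Lz X n ∨ ∃ z, z ⊆ Lz X n ∧ a = st' z := by
  rw [Lz, ZFSet.mem_union, ZFSet.mem_range]
  constructor
  · rintro (h | ⟨s, rfl⟩)
    · exact Or.inl h
    · right
      refine ⟨_, ZFSet.mem_powerset.1 ((equivShrink _).symm s).2, rfl⟩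
  · rintro (h | ⟨z, hz, rfl⟩)
    · exact Or.inl h
    · right
      refine ⟨equivShrink _ ⟨z, ZFSet.mem_powerset.2 hz⟩, ?_⟩
      simp

/-- the superstructure over `X` -/
noncomputable def theSuper : Superstructure.{u, u + 1} X where
  V := {a : ZFSet.{u} // ∃ n, a ∈ Lz X n}
  mem a b := ∃ z, b.1 = st' z ∧ a.1 ∈ z
  atom x := ⟨at' X x, 0, by rw [Lz]; exact ZFSet.mem_range.2 ⟨x, rfl⟩⟩
  level n := {a | a.1 ∈ Lz X n}
  atom_injective := by
    intro x y h
    have h1 := congrArg Subtype.val h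
    exact code_injective X (ZFSet.pair_inj.1 h1).2
  not_mem_atom := by
    rintro x a ⟨z, hz, _⟩
    exact at_ne_st X x z hz
  ext := by
    have key : ∀ a : {a : ZFSet.{u} // ∃ n, a ∈ Lz X n},
        (a ∉ Set.range (fun x : X => (⟨at' X x, 0, by rw [Lz]; exact ZFSet.mem_range.2 ⟨x, rfl⟩⟩ :
          {a : ZFSet.{u} // ∃ n, a ∈ Lz X n}))) →
        ∃ (n : ℕ) (z : ZFSet.{u}), z ⊆ Lz X n ∧ a.1 = st' z := by
      rintro ⟨a, n, ha⟩ hna
      induction n with
      | zero =>
        exfalso
        rw [Lz, ZFSet.mem_range] at ha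
        obtain ⟨x, rfl⟩ := ha
        exact hna ⟨x, rfl⟩
      | succ n ih =>
        rcases (mem_Lz_succ X).1 ha with h | ⟨z, hz, rfl⟩
        · exact ih h hna
        · exact ⟨n, z, hz, rfl⟩
    intro a b ha hb hab
    obtain ⟨n, z, hz, haz⟩ := key a ha
    obtain ⟨m, y, hy, hby⟩ := key b hb
    apply Subtype.ext
    rw [haz, hby]
    congr 1
    ext c
    constructor
    · intro hc
      have := (hab ⟨c, n, hz hc⟩).1 ⟨z, haz, hc⟩
      obtain ⟨y', hy', hc'⟩ := this
      rw [hby] at hy'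
      rw [st_inj hy']; exact hc'
    · intro hc
      have := (hab ⟨c, m, hy hc⟩).2 ⟨y, hby, hc⟩
      obtain ⟨y', hy', hc'⟩ := this
      rw [haz] at hy'
      rw [st_inj hy']; exact hc'
  level_zero := by
    ext a
    simp only [Set.mem_setOf_eq, Set.mem_range]
    have h0 : a.1 ∈ Lz X 0 ↔ ∃ x, at' X x = a.1 := by rw [Lz, ZFSet.mem_range]
    rw [h0]
    constructor
    · rintro ⟨x, hx⟩; exact ⟨x, Subtype.ext hx⟩
    · rintro ⟨x, rfl⟩; exact ⟨x, rfl⟩
  level_succ := by
    intro n
    ext a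
    simp only [Set.mem_setOf_eq, Set.mem_range, Set.mem_union]
    rw [mem_Lz_succ]
    constructor
    · rintro (h | ⟨z, hz, haz⟩)
      · exact Or.inl h
      · right
        refine ⟨?_, ?_⟩
        · rintro ⟨x, hx⟩
          have := congrArg Subtype.val hx
          rw [haz] at this
          exact at_ne_st X x z this
        · rintro c ⟨z', hz', hc⟩
          rw [haz] at hz'
          rw [← st_inj hz'] at hc
          exact hz hc
    · rintro (h | ⟨hna, hc⟩)
      · exact Or.inl h
      · -- a is a set all of whose members are in level n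
        obtain ⟨a, m, ham⟩ := a
        have : ∀ m, a ∈ Lz X m → ∃ (k : ℕ) (z : ZFSet.{u}), z ⊆ Lz X k ∧ a = st' z := by
          intro m
          induction m with
          | zero =>
            intro ha
            exfalso
            rw [Lz, ZFSet.mem_range] at ha
            obtain ⟨x, rfl⟩ := ha
            exact hna ⟨x, rfl⟩
          | succ m ih =>
            intro ha
            rcases (mem_Lz_succ X).1 ha with h | ⟨z, hz, rfl⟩
            · exact ih h
            · exact ⟨m, z, hz, rfl⟩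
        obtain ⟨k, z, hz, rfl⟩ := this m ham
        right
        refine ⟨z, ?_, rfl⟩
        intro c hcz
        exact hc ⟨c, k, hz hcz⟩ ⟨z, rfl, hcz⟩
  exists_level := by
    rintro ⟨a, n, ha⟩
    exact ⟨n, ha⟩
  exists_set := by
    intro n A hA
    let z : ZFSet.{u} := ZFSet.sep (fun y => ∃ h : ∃ n, y ∈ Lz X n, (⟨y, h⟩ : {a : ZFSet.{u} // ∃ n, a ∈ Lz X n}) ∈ A) (Lz X n)
    have hz : z ⊆ Lz X n := ZFSet.sep_subset
    refine ⟨⟨st' z, n + 1, (mem_Lz_succ X).2 (Or.inr ⟨z, hz, rfl⟩)⟩, ?_, ?_⟩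
    · rintro ⟨x, hx⟩
      have := congrArg Subtype.val hx
      exact at_ne_st X x z this
    · intro c
      constructor
      · rintro ⟨z', hz', hc⟩
        rw [← st_inj hz'] at hc
        obtain ⟨_, h⟩ := (ZFSet.mem_sep.1 hc).2
        exact h
      · intro hc
        exact ⟨z, rfl, ZFSet.mem_sep.2 ⟨hA hc, c.2, hc⟩⟩

end SuperExists

end Pool.Agent.Hhelper77
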