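import Pool.Agent.Hhelper77.Superstructure

/-!
Derived bounded formulas and the consequences of transfer that are needed.
-/

universe u v w

namespace Pool.Agent.Hhelper77

namespace BddFormula

/-- disjunction -/
def or (φ ψ : BddFormula) : BddFormula := .not (.and (.not φ) (.not ψ))

/-- implication -/
def imp (φ ψ : BddFormula) : BddFormula := .not (.and φ (.not ψ))

/-- bounded existential quantifier -/
def bex (i j : ℕ) (φ : BddFormula) : BddFormula := .not (.ball i j (.not φ))

/-- `s = {p}` with auxiliary variable `u` -/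
def single (s p u : ℕ) : BddFormula := .and (.mem p s) (.ball u s (.eq u p))

/-- `s = {p,q}` with auxiliary variable `u` -/
def upair (s p q u : ℕ) : BddFormula :=
  .and (.mem p s) (.and (.mem q s) (.ball u s (or (.eq u p) (.eq u q))))

/-- `t = (p,q)` with auxiliary variables `s`, `u` -/
def opair (t p q s u : ℕ) : BddFormula :=
  .and (bex s t (single s p u)) (.and (bex s t (upair s p q u))
    (.ball s t (or (single s p u) (upair s p q u))))

/-- `(p,q) ∈ r` with auxiliary variables `t`, `s`, `u` -/
def rel2 (r p q t s u : ℕ) : BddFormula := bex t r (opair t p q s u)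

/-- `((x,y),z) ∈ r` with auxiliary variables `t`, `s`, `p`, `s'`, `u` -/
def rel3 (r x y z t s p s' u : ℕ) : BddFormula :=
  bex t r (bex s t (bex p s (.and (opair t p z s' u) (opair p x y s' u))))

end BddFormula

open BddFormula

namespace Superstructure

variable {X : Type u} {S : Superstructure.{u, v} X}

@[simp] theorem sat_mem (i j : ℕ) (a : ℕ → S.V) : S.Sat (.mem i j) a ↔ S.mem (a i) (a j) := Iff.rfl
@[simp] theorem sat_eq (i j : ℕ) (a : ℕ → S.V) : S.Sat (.eq i j) a ↔ a i = a j := Iff.rfl
@[simp] theorem sat_not (φ : BddFormula) (a : ℕ → S.V) : S.Sat (.not φ) a ↔ ¬ S.Sat φ a := Iff.rfl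
@[simp] theorem sat_and (φ ψ : BddFormula) (a : ℕ → S.V) :
    S.Sat (.and φ ψ) a ↔ (S.Sat φ a ∧ S.Sat ψ a) := Iff.rfl
@[simp] theorem sat_ball (i j : ℕ) (φ : BddFormula) (a : ℕ → S.V) :
    S.Sat (.ball i j φ) a ↔ ∀ c, S.mem c (a j) → S.Sat φ (Function.update a i c) := Iff.rfl
@[simp] theorem sat_or (φ ψ : BddFormula) (a : ℕ → S.V) :
    S.Sat (BddFormula.or φ ψ) a ↔ (S.Sat φ a ∨ S.Sat ψ a) := by
  simp only [BddFormula.or, sat_not, sat_and]; tauto
@[simp] theorem sat_imp (φ ψ : BddFormula) (a : ℕ → S.V) :
    S.Sat (BddFormula.imp φ ψ) a ↔ (S.Sat φ a → S.Sat ψ a) := by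
  simp only [BddFormula.imp, sat_not, sat_and]; tauto
@[simp] theorem sat_bex (i j : ℕ) (φ : BddFormula) (a : ℕ → S.V) :
    S.Sat (BddFormula.bex i j φ) a ↔ ∃ c, S.mem c (a j) ∧ S.Sat φ (Function.update a i c) := by
  simp only [BddFormula.bex, sat_not, sat_ball]; push Not; rfl

theorem sat_single {s p u : ℕ} (h1 : u ≠ p) (a : ℕ → S.V) :
    S.Sat (single s p u) a ↔ a s = S.coll {a p} := by
  rw [eq_single_iff]
  simp [single, h1.symm]

theorem sat_upair {s p q u : ℕ} (h1 : u ≠ p) (h2 : u ≠ q) (a : ℕ → S.V) :
    S.Sat (upair s p q u) a ↔ a s = S.coll {a p, a q} := by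
  rw [eq_upair_iff]
  simp [upair, h1.symm, h2.symm]

theorem sat_opair {t p q s u : ℕ} (h1 : u ≠ p) (h2 : u ≠ q) (h3 : s ≠ p) (h4 : s ≠ q)
    (a : ℕ → S.V) :
    S.Sat (opair t p q s u) a ↔ a t = S.pair (a p) (a q) := by
  rw [eq_pair_iff]
  simp [opair, sat_single h1, sat_upair h1 h2, h3.symm, h4.symm]

theorem sat_rel2 {r p q t s u : ℕ} (h1 : u ≠ p) (h2 : u ≠ q) (h3 : s ≠ p) (h4 : s ≠ q)
    (h5 : t ≠ p) (h6 : t ≠ q) (a : ℕ → S.V) :
    S.Sat (rel2 r p q t s u) a ↔ S.mem (S.pair (a p) (a q)) (a r) := by
  simp [rel2, sat_opair h1 h2 h3 h4, h5.symm, h6.symm]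

theorem exists_mem_mem_pair (p q : S.V) : ∃ s, S.mem s (S.pair p q) ∧ S.mem p s := by
  refine ⟨S.coll {p}, ?_, ?_⟩
  · unfold pair
    exact (mem_coll_finite (Set.toFinite _)).2 (by simp)
  · exact (mem_coll_finite (Set.finite_singleton p)).2 rfl

/-- the side conditions on the variables in `rel3` -/
theorem sat_rel3 {r x y z t s p s' u : ℕ} (hux : u ≠ x) (huy : u ≠ y) (huz : u ≠ z) (hup : u ≠ p)
    (hsx : s' ≠ x) (hsy : s' ≠ y) (hsz : s' ≠ z) (hsp : s' ≠ p)
    (hpx : p ≠ x) (hpy : p ≠ y) (hpz : p ≠ z) (hpt : p ≠ t)
    (hs1x : s ≠ x) (hs1y : s ≠ y) (hs1z : s ≠ z) (hs1t : s ≠ t)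
    (htx : t ≠ x) (hty : t ≠ y) (htz : t ≠ z) (a : ℕ → S.V) :
    S.Sat (rel3 r x y z t s p s' u) a ↔ S.mem (S.pair (S.pair (a x) (a y)) (a z)) (a r) := by
  simp only [rel3, sat_bex, sat_and, sat_opair hup huz hsp hsz, sat_opair hux huy hsx hsy]
  simp only [Function.update_self, Function.update_of_ne hpx.symm, Function.update_of_ne hpy.symm,
    Function.update_of_ne hpz.symm, Function.update_of_ne hpt.symm, Function.update_of_ne hs1x.symm,
    Function.update_of_ne hs1y.symm, Function.update_of_ne hs1z.symm,
    Function.update_of_ne hs1t.symm, Function.update_of_ne htx.symm, Function.update_of_ne hty.symm,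
    Function.update_of_ne htz.symm]
  constructor
  · rintro ⟨c, hc, s, hs, p, hp, h1, h2⟩
    rw [← h2, ← h1]; exact hc
  · intro h
    obtain ⟨s, hs, hp⟩ := exists_mem_mem_pair (S.pair (a x) (a y)) (a z)
    exact ⟨_, h, s, hs, _, hp, rfl, rfl⟩

theorem mem_mulGraph {S : Superstructure.{0, v} ℕ} {x y z : ℕ} :
    S.mem (S.pair (S.pair (S.atom x) (S.atom y)) (S.atom z)) (mulGraph S) ↔ z = x * y := by
  unfold mulGraph
  have hbd : {t | ∃ m n : ℕ, t = S.pair (S.pair (S.atom m) (S.atom n)) (S.atom (m * n))} ⊆
      S.level 4 := by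
    rintro _ ⟨m, n, rfl⟩
    exact pair_mem_level (pair_mem_level (atom_mem_level _ 0) (atom_mem_level _ 0))
      (atom_mem_level _ 2)
  rw [mem_coll hbd]
  constructor
  · rintro ⟨m, n, h⟩
    obtain ⟨h1, h2⟩ := pair_inj h
    obtain ⟨h3, h4⟩ := pair_inj h1
    rw [S.atom_injective h3, S.atom_injective h4, S.atom_injective h2]
  · rintro rfl
    exact ⟨x, y, rfl⟩

/-- The graph of a function on `ℕ` as an object. -/
noncomputable def funGraph (S : Superstructure.{0, v} ℕ) (f : ℕ → ℕ) : S.V :=
  S.coll {t | ∃ m : ℕ, t = S.pair (S.atom m) (S.atom (f m))}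

theorem mem_funGraph {S : Superstructure.{0, v} ℕ} {f : ℕ → ℕ} {x y : ℕ} :
    S.mem (S.pair (S.atom x) (S.atom y)) (funGraph S f) ↔ y = f x := by
  unfold funGraph
  have hbd : {t | ∃ m : ℕ, t = S.pair (S.atom m) (S.atom (f m))} ⊆ S.level 2 := by
    rintro _ ⟨m, rfl⟩
    exact pair_mem_level (atom_mem_level _ 0) (atom_mem_level _ 0)
  rw [mem_coll hbd]
  constructor
  · rintro ⟨m, h⟩
    obtain ⟨h3, h4⟩ := pair_inj h
    rw [S.atom_injective h3, S.atom_injective h4]
  · rintro rfl
    exact ⟨x, rfl⟩

end Superstructure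

open Superstructure

namespace NonstandardExtension

variable {E : NonstandardExtension.{u, v, w}}

theorem mem_starSet {T : Set ℕ} {y : E.Y} :
    y ∈ E.starSet T ↔ E.VY.mem (E.VY.atom y) (E.star (E.VN.ofSet T)) := Iff.rfl

/-- every element of `*T` is an atom -/
theorem mem_star_ofSet {T : Set ℕ} {c : E.VY.V} (h : E.VY.mem c (E.star (E.VN.ofSet T))) :
    ∃ y ∈ E.starSet T, E.VY.atom y = c := by
  have := (E.transfer (.ball 2 0 (.mem 2 1))
    (fun k => if k = 0 then E.VN.ofSet T else E.VN.ofSet Set.univ)).1 (by
      simp only [sat_ball, sat_mem, Function.update_self]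
      intro c hc
      simp only [if_true] at hc
      obtain ⟨x, _, rfl⟩ := mem_ofSet.1 hc
      exact atom_mem_ofSet.2 trivial)
  simp only [sat_ball, sat_mem, Function.update_self] at this
  have h2 := this c (by simp only [if_true]; exact h)
  rw [Function.update_of_ne (by decide)] at h2
  simp only [show (1:ℕ) ≠ 0 by decide, if_false] at h2
  rw [E.star_univ] at h2
  obtain ⟨y, _, rfl⟩ := mem_ofSet.1 h2
  exact ⟨y, h, rfl⟩

theorem starSet_univ : E.starSet Set.univ = Set.univ := by
  ext y
  simp only [Set.mem_univ, iff_true, mem_starSet, E.star_univ]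
  exact atom_mem_ofSet.2 trivial

theorem iota_mem_starSet {T : Set ℕ} {n : ℕ} : E.ι n ∈ E.starSet T ↔ n ∈ T := by
  rw [mem_starSet, ← E.star_atom]
  have := E.transfer (.mem 0 1) (fun k => if k = 0 then E.VN.atom n else E.VN.ofSet T)
  simp only [sat_mem, if_true, show (1:ℕ) ≠ 0 by decide, if_false] at this
  rw [← this, atom_mem_ofSet]

theorem starSet_mono {T U : Set ℕ} (h : T ⊆ U) : E.starSet T ⊆ E.starSet U := by
  intro y hy
  have := (E.transfer (.ball 2 0 (.mem 2 1))
    (fun k => if k = 0 then E.VN.ofSet T else E.VN.ofSet U)).1 (by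
      simp only [sat_ball, sat_mem, Function.update_self]
      intro c hc
      simp only [if_true] at hc
      obtain ⟨x, hx, rfl⟩ := mem_ofSet.1 hc
      exact atom_mem_ofSet.2 (h hx))
  simp only [sat_ball, sat_mem, Function.update_self] at this
  have h2 := this _ (by simp only [if_true]; exact hy)
  rw [Function.update_of_ne (by decide)] at h2
  simp only [show (1:ℕ) ≠ 0 by decide, if_false] at h2
  exact h2

theorem starSet_disjoint {T U : Set ℕ} (h : ∀ n ∈ T, n ∉ U) {y : E.Y} (hy : y ∈ E.starSet T) :
    y ∉ E.starSet U := by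
  have := (E.transfer (.ball 2 0 (.not (.mem 2 1)))
    (fun k => if k = 0 then E.VN.ofSet T else E.VN.ofSet U)).1 (by
      simp only [sat_ball, sat_mem, sat_not, Function.update_self]
      intro c hc
      simp only [if_true] at hc
      obtain ⟨x, hx, rfl⟩ := mem_ofSet.1 hc
      intro h2
      exact h x hx (atom_mem_ofSet.1 h2))
  simp only [sat_ball, sat_mem, sat_not, Function.update_self] at this
  have h2 := this _ (by simp only [if_true]; exact hy)
  rw [Function.update_of_ne (by decide)] at h2
  simp only [show (1:ℕ) ≠ 0 by decide, if_false] at h2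
  exact h2

theorem starSet_union {T U W : Set ℕ} (h : ∀ n ∈ W, n ∈ T ∨ n ∈ U) {y : E.Y}
    (hy : y ∈ E.starSet W) : y ∈ E.starSet T ∨ y ∈ E.starSet U := by
  have := (E.transfer (.ball 3 0 (BddFormula.or (.mem 3 1) (.mem 3 2)))
    (fun k => if k = 0 then E.VN.ofSet W else if k = 1 then E.VN.ofSet T else E.VN.ofSet U)).1 (by
      simp only [sat_ball, sat_mem, sat_or, Function.update_self]
      intro c hc
      simp only [if_true] at hc
      obtain ⟨x, hx, rfl⟩ := mem_ofSet.1 hc
      rcases h x hx with h | h
      · left; exact atom_mem_ofSet.2 h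
      · right; exact atom_mem_ofSet.2 h)
  simp only [sat_ball, sat_mem, sat_or, Function.update_self] at this
  have h2 := this _ (by simp only [if_true]; exact hy)
  rw [Function.update_of_ne (by decide), Function.update_of_ne (by decide)] at h2
  simp only [show (1:ℕ) ≠ 0 by decide, show (2:ℕ) ≠ 0 by decide, show (2:ℕ) ≠ 1 by decide,
    if_false, if_true] at h2
  exact h2

theorem starSet_singleton {n : ℕ} {y : E.Y} (hy : y ∈ E.starSet {n}) : y = E.ι n := by
  have := (E.transfer (.ball 2 0 (.eq 2 1))
    (fun k => if k = 0 then E.VN.ofSet {n} else E.VN.atom n)).1 (by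
      simp only [sat_ball, sat_eq, Function.update_self]
      intro c hc
      simp only [if_true] at hc
      obtain ⟨x, hx, rfl⟩ := mem_ofSet.1 hc
      rw [Set.mem_singleton_iff] at hx
      subst hx
      rfl)
  simp only [sat_ball, sat_eq, Function.update_self] at this
  have h2 := this _ (by simp only [if_true]; exact hy)
  rw [Function.update_of_ne (by decide)] at h2
  simp only [show (1:ℕ) ≠ 0 by decide, if_false] at h2
  rw [E.star_atom] at h2
  exact E.VY.atom_injective h2

theorem starSet_finite {T : Set ℕ} (hT : T.Finite) {y : E.Y} (hy : y ∈ E.starSet T) :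
    y ∈ Set.range E.ι := by
  induction T, hT using Set.Finite.induction_on with
  | empty =>
    exact absurd hy (starSet_disjoint (T := ∅) (U := ∅) (by simp) hy)
  | @insert a A _ _ ih =>
    rcases starSet_union (T := {a}) (U := A) (by intro n hn; simpa using hn) hy with h | h
    · exact ⟨a, (starSet_singleton h).symm⟩
    · exact ih h

/-- The relation `y = *f (x)`. -/
def IsVal (E : NonstandardExtension.{u, v, w}) (f : ℕ → ℕ) (x y : E.Y) : Prop :=
  E.VY.mem (E.VY.pair (E.VY.atom x) (E.VY.atom y)) (E.star (funGraph E.VN f))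

/-- `*f` is defined everywhere -/
theorem exists_isVal (f : ℕ → ℕ) (x : E.Y) : ∃ y, E.IsVal f x y := by
  have := (E.transfer (.ball 2 0 (bex 3 0 (rel2 1 2 3 4 5 6)))
    (fun k => if k = 0 then E.VN.ofSet Set.univ else funGraph E.VN f)).1 (by
      simp only [sat_ball, sat_bex]
      intro c hc
      simp only [if_true] at hc
      obtain ⟨x, _, rfl⟩ := mem_ofSet.1 hc
      refine ⟨E.VN.atom (f x), ?_, ?_⟩
      · rw [Function.update_of_ne (by decide)]
        simp only [if_true]
        exact atom_mem_ofSet.2 trivial
      · rw [sat_rel2 (by decide) (by decide) (by decide) (by decide) (by decide) (by decide)]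
        simp only [Function.update_self, Function.update_of_ne (show (2:ℕ) ≠ 3 by decide),
          Function.update_of_ne (show (1:ℕ) ≠ 3 by decide),
          Function.update_of_ne (show (1:ℕ) ≠ 2 by decide), show (1:ℕ) ≠ 0 by decide, if_false]
        exact mem_funGraph.2 rfl)
  simp only [sat_ball, sat_bex] at this
  obtain ⟨c, hc1, hc2⟩ := this (E.VY.atom x) (by
    simp only [if_true]; rw [E.star_univ]; exact atom_mem_ofSet.2 trivial)
  rw [Function.update_of_ne (by decide)] at hc1
  simp only [if_true] at hc1
  rw [E.star_univ] at hc1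
  obtain ⟨y, _, rfl⟩ := mem_ofSet.1 hc1
  rw [sat_rel2 (by decide) (by decide) (by decide) (by decide) (by decide) (by decide)] at hc2
  simp only [Function.update_self, Function.update_of_ne (show (2:ℕ) ≠ 3 by decide),
          Function.update_of_ne (show (1:ℕ) ≠ 3 by decide),
          Function.update_of_ne (show (1:ℕ) ≠ 2 by decide), show (1:ℕ) ≠ 0 by decide, if_false]
    at hc2
  exact ⟨y, hc2⟩

/-- `*f(x) ∈ *T` iff `x ∈ *(f⁻¹ T)` -/
theorem isVal_starSet {f : ℕ → ℕ} {x y : E.Y} (h : E.IsVal f x y) (T : Set ℕ) :
    y ∈ E.starSet T ↔ x ∈ E.starSet (f ⁻¹' T) := by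
  have key := (E.transfer (.ball 4 0 (.ball 5 0 (BddFormula.imp (rel2 1 4 5 6 7 8)
      (.and (BddFormula.imp (.mem 5 2) (.mem 4 3)) (BddFormula.imp (.mem 4 3) (.mem 5 2))))))
    (fun k => if k = 0 then E.VN.ofSet Set.univ else if k = 1 then funGraph E.VN f else
      if k = 2 then E.VN.ofSet T else E.VN.ofSet (f ⁻¹' T))).1 (by
      simp only [sat_ball, sat_imp, sat_and]
      intro c hc d hd
      rw [Function.update_of_ne (by decide)] at hd
      simp only [if_true] at hc hd
      obtain ⟨x, _, rfl⟩ := mem_ofSet.1 hc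
      obtain ⟨y, _, rfl⟩ := mem_ofSet.1 hd
      rw [sat_rel2 (by decide) (by decide) (by decide) (by decide) (by decide) (by decide)]
      simp only [Function.update_self, Function.update_of_ne (show (4:ℕ) ≠ 5 by decide),
          Function.update_of_ne (show (1:ℕ) ≠ 5 by decide),
          Function.update_of_ne (show (1:ℕ) ≠ 4 by decide), show (1:ℕ) ≠ 0 by decide, if_false,
          if_true, sat_mem, Function.update_of_ne (show (2:ℕ) ≠ 5 by decide),
          Function.update_of_ne (show (2:ℕ) ≠ 4 by decide),
          Function.update_of_ne (show (3:ℕ) ≠ 5 by decide),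
          Function.update_of_ne (show (3:ℕ) ≠ 4 by decide), show (2:ℕ) ≠ 0 by decide,
          show (2:ℕ) ≠ 1 by decide, show (3:ℕ) ≠ 0 by decide,
          show (3:ℕ) ≠ 1 by decide, show (3:ℕ) ≠ 2 by decide]
      intro hxy
      have := mem_funGraph.1 hxy
      subst this
      constructor
      · intro h; rw [atom_mem_ofSet] at h ⊢; exact h
      · intro h; rw [atom_mem_ofSet] at h ⊢; exact h)
  simp only [sat_ball, sat_imp, sat_and] at key
  have h3 := key (E.VY.atom x) (by
    simp only [if_true]; rw [E.star_univ]; exact atom_mem_ofSet.2 trivial) (E.VY.atom y) (by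
    rw [Function.update_of_ne (by decide)]
    simp only [if_true]; rw [E.star_univ]; exact atom_mem_ofSet.2 trivial)
  rw [sat_rel2 (by decide) (by decide) (by decide) (by decide) (by decide) (by decide)] at h3
  simp only [Function.update_self, Function.update_of_ne (show (4:ℕ) ≠ 5 by decide),
          Function.update_of_ne (show (1:ℕ) ≠ 5 by decide),
          Function.update_of_ne (show (1:ℕ) ≠ 4 by decide), show (1:ℕ) ≠ 0 by decide, if_false,
          if_true, sat_mem, Function.update_of_ne (show (2:ℕ) ≠ 5 by decide),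
          Function.update_of_ne (show (2:ℕ) ≠ 4 by decide),
          Function.update_of_ne (show (3:ℕ) ≠ 5 by decide),
          Function.update_of_ne (show (3:ℕ) ≠ 4 by decide), show (2:ℕ) ≠ 0 by decide,
          show (2:ℕ) ≠ 1 by decide, show (3:ℕ) ≠ 0 by decide,
          show (3:ℕ) ≠ 1 by decide, show (3:ℕ) ≠ 2 by decide] at h3
  have h4 := h3 h
  exact ⟨h4.1, h4.2⟩

/-- `*f(a)·*g(a) = *(f·g)(a)` -/
theorem isProd_of_isVal {f g h : ℕ → ℕ} (hfg : ∀ n, h n = f n * g n) {a x y p : E.Y}
    (hx : E.IsVal f a x) (hy : E.IsVal g a y) (hp : E.IsVal h a p) : E.IsProd x y p := by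
  have key := (E.transfer (.ball 5 0 (.ball 6 0 (.ball 7 0 (.ball 8 0
      (BddFormula.imp (rel2 1 5 6 9 10 11) (BddFormula.imp (rel2 2 5 7 9 10 11)
        (BddFormula.imp (rel2 3 5 8 9 10 11) (rel3 4 6 7 8 9 10 11 12 13))))))))
    (fun k => if k = 0 then E.VN.ofSet Set.univ else if k = 1 then funGraph E.VN f else
      if k = 2 then funGraph E.VN g else if k = 3 then funGraph E.VN h else mulGraph E.VN)).1 (by
      simp only [sat_ball, sat_imp, sat_and]
      intro a ha x hx y hy p hp
      simp (decide := true) only [Function.update_of_ne, if_true, ne_eq] at ha hx hy hp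
      obtain ⟨a, _, rfl⟩ := mem_ofSet.1 ha
      obtain ⟨x, _, rfl⟩ := mem_ofSet.1 hx
      obtain ⟨y, _, rfl⟩ := mem_ofSet.1 hy
      obtain ⟨p, _, rfl⟩ := mem_ofSet.1 hp
      rw [sat_rel2 (by decide) (by decide) (by decide) (by decide) (by decide) (by decide),
        sat_rel2 (by decide) (by decide) (by decide) (by decide) (by decide) (by decide),
        sat_rel2 (by decide) (by decide) (by decide) (by decide) (by decide) (by decide),
        sat_rel3 (by decide) (by decide) (by decide) (by decide) (by decide) (by decide)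
          (by decide) (by decide) (by decide) (by decide) (by decide) (by decide)
          (by decide) (by decide) (by decide) (by decide) (by decide) (by decide) (by decide)]
      simp (decide := true) only [Function.update_self, Function.update_of_ne, if_true, ne_eq,
        if_false]
      rw [mem_funGraph, mem_funGraph, mem_funGraph, mem_mulGraph]
      rintro rfl rfl rfl
      exact hfg a)
  simp only [sat_ball, sat_imp, sat_and] at key
  have hall : ∀ y : E.Y, E.VY.mem (E.VY.atom y) (E.star (E.VN.ofSet Set.univ)) := by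
    intro y; rw [E.star_univ]; exact atom_mem_ofSet.2 trivial
  have h3 := key (E.VY.atom a)
    (by simp (decide := true) only [Function.update_of_ne, if_true, ne_eq]; exact hall _)
    (E.VY.atom x)
    (by simp (decide := true) only [Function.update_of_ne, if_true, ne_eq]; exact hall _)
    (E.VY.atom y)
    (by simp (decide := true) only [Function.update_of_ne, if_true, ne_eq]; exact hall _)
    (E.VY.atom p)
    (by simp (decide := true) only [Function.update_of_ne, if_true, ne_eq]; exact hall _)
  rw [sat_rel2 (by decide) (by decide) (by decide) (by decide) (by decide) (by decide),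
        sat_rel2 (by decide) (by decide) (by decide) (by decide) (by decide) (by decide),
        sat_rel2 (by decide) (by decide) (by decide) (by decide) (by decide) (by decide),
        sat_rel3 (by decide) (by decide) (by decide) (by decide) (by decide) (by decide)
          (by decide) (by decide) (by decide) (by decide) (by decide) (by decide)
          (by decide) (by decide) (by decide) (by decide) (by decide) (by decide) (by decide)] at h3
  simp (decide := true) only [Function.update_self, Function.update_of_ne, if_true, ne_eq,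
        if_false] at h3
  exact h3 hx hy hp

theorem mem_univ (y : E.Y) : E.VY.mem (E.VY.atom y) (E.star (E.VN.ofSet Set.univ)) := by
  rw [E.star_univ]; exact atom_mem_ofSet.2 trivial

/-- multiplication on `*N` is defined everywhere -/
theorem exists_prod (x z : E.Y) : ∃ p, E.IsProd x z p := by
  have key := (E.transfer (.ball 2 0 (.ball 3 0 (bex 4 0 (rel3 1 2 3 4 5 6 7 8 9))))
    (fun k => if k = 0 then E.VN.ofSet Set.univ else mulGraph E.VN)).1 (by
      simp only [sat_ball, sat_bex]
      intro x hx z hz
      simp (decide := true) only [Function.update_of_ne, if_true, ne_eq] at hx hz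
      obtain ⟨x, _, rfl⟩ := mem_ofSet.1 hx
      obtain ⟨z, _, rfl⟩ := mem_ofSet.1 hz
      refine ⟨E.VN.atom (x * z), ?_, ?_⟩
      · simp (decide := true) only [Function.update_of_ne, if_true, ne_eq]
        exact atom_mem_ofSet.2 trivial
      · rw [sat_rel3 (by decide) (by decide) (by decide) (by decide) (by decide) (by decide)
          (by decide) (by decide) (by decide) (by decide) (by decide) (by decide)
          (by decide) (by decide) (by decide) (by decide) (by decide) (by decide) (by decide)]
        simp (decide := true) only [Function.update_self, Function.update_of_ne, ne_eq,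
          if_false]
        exact mem_mulGraph.2 rfl)
  simp only [sat_ball, sat_bex] at key
  obtain ⟨c, hc1, hc2⟩ := key (E.VY.atom x)
    (by simp (decide := true) only [if_true]; exact mem_univ _)
    (E.VY.atom z)
    (by simp (decide := true) only [Function.update_of_ne, if_true, ne_eq]; exact mem_univ _)
  simp (decide := true) only [Function.update_of_ne, if_true, ne_eq] at hc1
  rw [E.star_univ] at hc1
  obtain ⟨y, _, rfl⟩ := mem_ofSet.1 hc1
  rw [sat_rel3 (by decide) (by decide) (by decide) (by decide) (by decide) (by decide)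
          (by decide) (by decide) (by decide) (by decide) (by decide) (by decide)
          (by decide) (by decide) (by decide) (by decide) (by decide) (by decide)
          (by decide)] at hc2
  simp (decide := true) only [Function.update_self, Function.update_of_ne, ne_eq,
          if_false] at hc2
  exact ⟨y, hc2⟩

/-- multiplication on `*N` is single valued -/
theorem prod_unique {x z p q : E.Y} (hp : E.IsProd x z p) (hq : E.IsProd x z q) : p = q := by
  have key := (E.transfer (.ball 2 0 (.ball 3 0 (.ball 4 0 (.ball 5 0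
      (BddFormula.imp (rel3 1 2 3 4 6 7 8 9 10) (BddFormula.imp (rel3 1 2 3 5 6 7 8 9 10)
        (.eq 4 5)))))))
    (fun k => if k = 0 then E.VN.ofSet Set.univ else mulGraph E.VN)).1 (by
      simp only [sat_ball, sat_imp, sat_eq]
      intro x hx z hz p hp q hq
      simp (decide := true) only [Function.update_of_ne, if_true, ne_eq] at hx hz hp hq
      obtain ⟨x, _, rfl⟩ := mem_ofSet.1 hx
      obtain ⟨z, _, rfl⟩ := mem_ofSet.1 hz
      obtain ⟨p, _, rfl⟩ := mem_ofSet.1 hp
      obtain ⟨q, _, rfl⟩ := mem_ofSet.1 hq
      rw [sat_rel3 (by decide) (by decide) (by decide) (by decide) (by decide) (by decide)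
          (by decide) (by decide) (by decide) (by decide) (by decide) (by decide)
          (by decide) (by decide) (by decide) (by decide) (by decide) (by decide) (by decide),
        sat_rel3 (by decide) (by decide) (by decide) (by decide) (by decide) (by decide)
          (by decide) (by decide) (by decide) (by decide) (by decide) (by decide)
          (by decide) (by decide) (by decide) (by decide) (by decide) (by decide) (by decide)]
      simp (decide := true) only [Function.update_self, Function.update_of_ne, ne_eq,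
          if_false]
      rw [mem_mulGraph, mem_mulGraph]
      rintro rfl rfl
      rfl)
  simp only [sat_ball, sat_imp, sat_eq] at key
  have h3 := key (E.VY.atom x)
    (by simp (decide := true) only [if_true]; exact mem_univ _)
    (E.VY.atom z)
    (by simp (decide := true) only [Function.update_of_ne, if_true, ne_eq]; exact mem_univ _)
    (E.VY.atom p)
    (by simp (decide := true) only [Function.update_of_ne, if_true, ne_eq]; exact mem_univ _)
    (E.VY.atom q)
    (by simp (decide := true) only [Function.update_of_ne, if_true, ne_eq]; exact mem_univ _)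
  rw [sat_rel3 (by decide) (by decide) (by decide) (by decide) (by decide) (by decide)
          (by decide) (by decide) (by decide) (by decide) (by decide) (by decide)
          (by decide) (by decide) (by decide) (by decide) (by decide) (by decide) (by decide),
        sat_rel3 (by decide) (by decide) (by decide) (by decide) (by decide) (by decide)
          (by decide) (by decide) (by decide) (by decide) (by decide) (by decide)
          (by decide) (by decide) (by decide) (by decide) (by decide) (by decide) (by decide)] at h3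
  simp (decide := true) only [Function.update_self, Function.update_of_ne, ne_eq,
          if_false] at h3
  exact E.VY.atom_injective (h3 hp hq)

theorem existsUnique_prod (E : NonstandardExtension.{u, v, w}) (x z : E.Y) :
    ∃! p, E.IsProd x z p := by
  obtain ⟨p, hp⟩ := exists_prod x z
  exact ⟨p, hp, fun q hq => prod_unique hq hp⟩

theorem starSet_inter {T U : Set ℕ} {y : E.Y} (h1 : y ∈ E.starSet T) (h2 : y ∈ E.starSet U) :
    y ∈ E.starSet (T ∩ U) := by
  by_contra h3
  have h4 : y ∈ E.starSet (T ∩ U)ᶜ := by
    have h5 := starSet_union (T := T ∩ U) (U := (T ∩ U)ᶜ) (W := Set.univ)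
      (fun n _ => em _) (y := y) (by rw [starSet_univ]; trivial)
    exact h5.resolve_left h3
  have h5 := starSet_union (T := Tᶜ) (U := Uᶜ) (fun n hn => by
    by_cases hT : n ∈ T
    · right; intro hU; exact hn ⟨hT, hU⟩
    · left; exact hT) h4
  rcases h5 with h5 | h5
  · exact starSet_disjoint (T := T) (U := Tᶜ) (fun n hn hc => hc hn) h1 h5
  · exact starSet_disjoint (T := U) (U := Uᶜ) (fun n hn hc => hc hn) h2 h5

theorem starSet_compl {T : Set ℕ} {y : E.Y} : y ∉ E.starSet Tᶜ ↔ y ∈ E.starSet T := by
  constructor
  · intro h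
    have h5 := starSet_union (T := T) (U := Tᶜ) (W := Set.univ)
      (fun n _ => em _) (y := y) (by rw [starSet_univ]; trivial)
    exact h5.resolve_right h
  · intro h
    exact starSet_disjoint (T := T) (U := Tᶜ) (fun n hn hc => hc hn) h

/-- Multiplication on `*N`: `x · z` is the unique `p` with `((x,z),p) ∈ *M`, where `M` is the
graph of the multiplication of `N`. -/
noncomputable def mul (E : NonstandardExtension.{u, v, w}) (x z : E.Y) : E.Y :=
  (E.existsUnique_prod x z).choose

theorem isProd_mul (x z : E.Y) : E.IsProd x z (E.mul x z) :=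
  (E.existsUnique_prod x z).choose_spec.1

theorem mul_eq_of_isProd {x z p : E.Y} (h : E.IsProd x z p) : E.mul x z = p :=
  prod_unique (isProd_mul x z) h

/-- The ultrafilter `v(x) = {T ⊆ N : x ∈ *T}` on `N`. -/
noncomputable def v (E : NonstandardExtension.{u, v, w}) (x : E.Y) : Ultrafilter ℕ :=
  Ultrafilter.ofComplNotMemIff
    { sets := {T | x ∈ E.starSet T}
      univ_sets := by rw [Set.mem_setOf_eq, starSet_univ]; trivial
      sets_of_superset := fun h1 h2 => starSet_mono h2 h1
      inter_sets := fun h1 h2 => starSet_inter h1 h2 }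
    (fun _ => starSet_compl)

theorem mem_v {x : E.Y} {T : Set ℕ} : T ∈ E.v x ↔ x ∈ E.starSet T := Iff.rfl

end NonstandardExtension

/-- `A ⊆ N` is upward closed for divisibility. -/
def UpClosed (A : Set ℕ) : Prop := ∀ a ∈ A, ∀ n, a ∣ n → n ∈ A

/-- `F ∣~ G`: every upward closed set in `F` is in `G`. -/
def DivTilde (F G : Ultrafilter ℕ) : Prop := ∀ A, UpClosed A → A ∈ F → A ∈ G

/-- `F =~ G`. -/
def EqTilde (F G : Ultrafilter ℕ) : Prop := DivTilde F G ∧ DivTilde G F

end Pool.Agent.Hhelper77
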