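import Pool.Agent.Hhelper77.SuperTransfer
import Pool.Agent.Hhelper77.SuperExists

/-!
The bounded ultrapower of `V(N)`, collapsed onto the superstructure over the ultrapower of `N`,
is a nonstandard extension.
-/

universe u v w

namespace Pool.Agent.Hhelper77

open Superstructure Filter

namespace Ultrapower

variable {I : Type} (W : Ultrafilter I) (S : Superstructure.{0, v} ℕ)

/-- the set of atoms `*N` -/
abbrev Yt : Type := Filter.Germ (W : Filter I) ℕ

variable (S' : Superstructure.{0, w} (Yt W))

open Classical in
/-- the natural number of an atom -/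
noncomputable def num (a : S.V) : ℕ := if h : ∃ n, S.atom n = a then h.choose else 0

variable {S} in
theorem atom_num {a : S.V} (h : a ∈ Set.range S.atom) : S.atom (num S a) = a := by
  have h' : ∃ n, S.atom n = a := h
  unfold num
  rw [dif_pos h']
  exact h'.choose_spec

variable {S} in
theorem num_atom (n : ℕ) : num S (S.atom n) = n :=
  S.atom_injective (atom_num ⟨n, rfl⟩)

/-- almost everywhere an atom -/
def IsAt (f : I → S.V) : Prop := ∀ᶠ i in (W : Filter I), f i ∈ Set.range S.atom

/-- almost everywhere in level `n` -/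
def InLev (n : ℕ) (f : I → S.V) : Prop := ∀ᶠ i in (W : Filter I), f i ∈ S.level n

/-- almost everywhere a member -/
def Em (g f : I → S.V) : Prop := ∀ᶠ i in (W : Filter I), S.mem (g i) (f i)

/-- the germ of an almost everywhere atom valued function -/
noncomputable def gm (f : I → S.V) : Yt W := ((fun i => num S (f i) : I → ℕ) : Yt W)

open Classical in
/-- the collapse of functions with values in level `n` -/
noncomputable def cl : ℕ → (I → S.V) → S'.V
  | 0, f => S'.atom (gm W S f)
  | n + 1, f => if IsAt W S f then S'.atom (gm W S f)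
      else S'.coll {y | ∃ g, InLev W S n g ∧ Em W S g f ∧ cl n g = y}

variable {W S S'}

theorem inLev_zero {f : I → S.V} : InLev W S 0 f ↔ IsAt W S f := by
  unfold InLev IsAt
  rw [S.level_zero]

theorem inLev_mono {m n : ℕ} (h : m ≤ n) {f : I → S.V} (hf : InLev W S m f) : InLev W S n f :=
  Filter.Eventually.mono hf fun _ hi => level_mono h hi

theorem inLev_of_em {n : ℕ} {f g : I → S.V} (hf : InLev W S (n + 1) f) (hg : Em W S g f) :
    InLev W S n g := by
  filter_upwards [hf, hg] with i h1 h2
  exact mem_level_of_mem h1 h2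

theorem not_isAt {f : I → S.V} (h : ¬ IsAt W S f) :
    ∀ᶠ i in (W : Filter I), f i ∉ Set.range S.atom :=
  Ultrafilter.eventually_not.2 h

theorem not_em_of_isAt {f g : I → S.V} (h : IsAt W S f) : ¬ Em W S g f := by
  intro hg
  have h2 : ∀ᶠ i in (W : Filter I), False := by
    filter_upwards [h, hg] with i h1 h2
    obtain ⟨x, hx⟩ := h1
    rw [← hx] at h2
    exact S.not_mem_atom x _ h2
  exact (Filter.eventually_false_iff_eq_bot.1 h2 |> W.neBot.ne)

theorem gm_congr {f g : I → S.V} (h : f =ᶠ[(W : Filter I)] g) : gm W S f = gm W S g := by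
  unfold gm
  apply Filter.Germ.coe_eq.2
  filter_upwards [h] with i hi
  rw [hi]

theorem cl_congr (n : ℕ) {f g : I → S.V} (h : f =ᶠ[(W : Filter I)] g) :
    cl W S S' n f = cl W S S' n g := by
  cases n with
  | zero => rw [cl, cl, gm_congr h]
  | succ n =>
    have h1 : IsAt W S f ↔ IsAt W S g := by
      unfold IsAt
      exact Filter.eventually_congr (h.mono fun i hi => by rw [hi])
    have h2 : ∀ k : I → S.V, Em W S k f ↔ Em W S k g := by
      intro k
      unfold Em
      exact Filter.eventually_congr (h.mono fun i hi => by rw [hi])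
    rw [cl, cl, gm_congr h]
    simp only [h2]
    by_cases hg : IsAt W S g
    · rw [if_pos hg, if_pos (h1.2 hg)]
    · rw [if_neg hg, if_neg (fun hf => hg (h1.1 hf))]

theorem cl_of_isAt (n : ℕ) {f : I → S.V} (h : IsAt W S f) :
    cl W S S' n f = S'.atom (gm W S f) := by
  cases n with
  | zero => rw [cl]
  | succ n => rw [cl, if_pos h]

theorem cl_succ_of_not {n : ℕ} {f : I → S.V} (h : ¬ IsAt W S f) :
    cl W S S' (n + 1) f = S'.coll {y | ∃ g, InLev W S n g ∧ Em W S g f ∧ cl W S S' n g = y} := by
  rw [cl, if_neg h]

theorem cl_level : ∀ (n : ℕ) (f : I → S.V), InLev W S n f → cl W S S' n f ∈ S'.level n := by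
  intro n
  induction n with
  | zero => intro f _; rw [cl]; exact atom_mem_level _ 0
  | succ n ih =>
    intro f hf
    by_cases h : IsAt W S f
    · rw [cl_of_isAt _ h]; exact atom_mem_level _ _
    · rw [cl_succ_of_not h]
      apply coll_mem_level
      rintro _ ⟨g, hg, _, rfl⟩
      exact ih g hg

theorem bdd_set (n : ℕ) (f : I → S.V) :
    {y | ∃ g, InLev W S n g ∧ Em W S g f ∧ cl W S S' n g = y} ⊆ S'.level n := by
  rintro _ ⟨g, hg, _, rfl⟩
  exact cl_level n g hg

theorem cl_succ : ∀ (n : ℕ) (f : I → S.V), InLev W S n f →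
    cl W S S' (n + 1) f = cl W S S' n f := by
  intro n
  induction n with
  | zero =>
    intro f hf
    have h := inLev_zero.1 hf
    rw [cl_of_isAt _ h, cl_of_isAt _ h]
  | succ n ih =>
    intro f hf
    by_cases h : IsAt W S f
    · rw [cl_of_isAt _ h, cl_of_isAt _ h]
    · rw [cl_succ_of_not h, cl_succ_of_not h]
      congr 1
      ext y
      constructor
      · rintro ⟨g, _, hg2, rfl⟩
        have hg3 := inLev_of_em hf hg2
        exact ⟨g, hg3, hg2, (ih g hg3).symm⟩
      · rintro ⟨g, hg1, hg2, rfl⟩
        exact ⟨g, inLev_mono (Nat.le_succ n) hg1, hg2, ih g hg1⟩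

theorem cl_of_le {m n : ℕ} (h : m ≤ n) {f : I → S.V} (hf : InLev W S m f) :
    cl W S S' n f = cl W S S' m f := by
  induction h with
  | refl => rfl
  | @step k hk ih => rw [cl_succ k f (inLev_mono hk hf), ih]

theorem atom_gm_inj {f g : I → S.V} (hf : IsAt W S f) (hg : IsAt W S g)
    (h : S'.atom (gm W S f) = S'.atom (gm W S g)) : f =ᶠ[(W : Filter I)] g := by
  have h1 := S'.atom_injective h
  unfold gm at h1
  have h2 := Filter.Germ.coe_eq.1 h1
  filter_upwards [hf, hg, h2] with i a b c
  rw [← atom_num a, ← atom_num b, c]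

theorem cl_inj : ∀ (n : ℕ) (f g : I → S.V), InLev W S n f → InLev W S n g →
    cl W S S' n f = cl W S S' n g → f =ᶠ[(W : Filter I)] g := by
  intro n
  induction n with
  | zero =>
    intro f g hf hg h
    rw [cl, cl] at h
    exact atom_gm_inj (inLev_zero.1 hf) (inLev_zero.1 hg) h
  | succ n ih =>
    intro f g hf hg h
    by_cases h1 : IsAt W S f
    · by_cases h2 : IsAt W S g
      · rw [cl_of_isAt _ h1, cl_of_isAt _ h2] at h
        exact atom_gm_inj h1 h2 h
      · rw [cl_of_isAt _ h1, cl_succ_of_not h2] at h
        exact absurd ⟨_, h⟩ (coll_not_atom _)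
    · by_cases h2 : IsAt W S g
      · rw [cl_of_isAt _ h2, cl_succ_of_not h1] at h
        exact absurd ⟨_, h.symm⟩ (coll_not_atom _)
      · rw [cl_succ_of_not h1, cl_succ_of_not h2] at h
        have hset : ∀ y, (∃ k, InLev W S n k ∧ Em W S k f ∧ cl W S S' n k = y) ↔
            (∃ k, InLev W S n k ∧ Em W S k g ∧ cl W S S' n k = y) := by
          intro y
          have e1 := mem_coll (bdd_set (S' := S') (W := W) n f) (c := y)
          have e2 := mem_coll (bdd_set (S' := S') (W := W) n g) (c := y)
          rw [h] at e1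
          exact e1.symm.trans e2
        -- a function picking elements of `f i \ g i` is impossible
        have key : ∀ (f g : I → S.V), InLev W S (n + 1) f →
            (∀ y, (∃ k, InLev W S n k ∧ Em W S k f ∧ cl W S S' n k = y) →
              (∃ k, InLev W S n k ∧ Em W S k g ∧ cl W S S' n k = y)) →
            ¬ ∀ᶠ i in (W : Filter I), ∃ x, S.mem x (f i) ∧ ¬ S.mem x (g i) := by
          intro f g hf hset hx
          obtain ⟨k, hk⟩ := hx.choice
          have hkf : Em W S k f := hk.mono fun i hi => hi.1
          have hkl := inLev_of_em hf hkf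
          obtain ⟨k', hk'1, hk'2, hk'3⟩ := hset _ ⟨k, hkl, hkf, rfl⟩
          have heq := ih k' k hk'1 hkl hk'3
          have h2 : ∀ᶠ i in (W : Filter I), False := by
            filter_upwards [hk, heq, hk'2] with i a b c
            rw [b] at c
            exact a.2 c
          exact (Filter.eventually_false_iff_eq_bot.1 h2 |> W.neBot.ne)
        by_contra hne
        have hne' : ∀ᶠ i in (W : Filter I), ¬ f i = g i := Ultrafilter.eventually_not.2 hne
        have hor : ∀ᶠ i in (W : Filter I), (∃ x, S.mem x (f i) ∧ ¬ S.mem x (g i)) ∨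
            (∃ x, S.mem x (g i) ∧ ¬ S.mem x (f i)) := by
          filter_upwards [hne', not_isAt h1, not_isAt h2] with i a b c
          by_contra hcon
          push Not at hcon
          exact a (S.ext _ _ b c fun x => ⟨hcon.1 x, hcon.2 x⟩)
        rcases Ultrafilter.eventually_or.1 hor with h3 | h3
        · exact key f g hf (fun y => (hset y).1) h3
        · exact key g f hg (fun y => (hset y).2) h3

theorem cl_mem {n : ℕ} {f g : I → S.V} (hg : InLev W S n g) :
    S'.mem (cl W S S' n g) (cl W S S' (n + 1) f) ↔ Em W S g f := by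
  by_cases h : IsAt W S f
  · rw [cl_of_isAt (n + 1) h]
    exact iff_of_false (S'.not_mem_atom _ _) (not_em_of_isAt h)
  · rw [cl_succ_of_not h, mem_coll (bdd_set n f)]
    constructor
    · rintro ⟨g', hg'1, hg'2, hg'3⟩
      have heq := cl_inj n g' g hg'1 hg hg'3
      filter_upwards [heq, hg'2] with i a b
      rw [← a]; exact b
    · intro he
      exact ⟨g, hg, he, rfl⟩

theorem cl_mem_exists {n : ℕ} {f : I → S.V} {y : S'.V}
    (h : S'.mem y (cl W S S' (n + 1) f)) : ∃ g, InLev W S n g ∧ Em W S g f ∧ cl W S S' n g = y := by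
  by_cases h1 : IsAt W S f
  · rw [cl_of_isAt (n + 1) h1] at h
    exact absurd h (S'.not_mem_atom _ _)
  · rw [cl_succ_of_not h1] at h
    exact (mem_coll (bdd_set n f)).1 h

variable (W S S')

/-- bounded functions -/
def Bd (f : I → S.V) : Prop := ∃ n, InLev W S n f

open Classical in
/-- the collapse of bounded functions -/
noncomputable def jj (f : I → S.V) : S'.V :=
  cl W S S' (if h : Bd W S f then Nat.find h else 0) f

variable {W S S'}

theorem jj_eq {n : ℕ} {f : I → S.V} (h : InLev W S n f) : jj W S S' f = cl W S S' n f := by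
  classical
  have hb : Bd W S f := ⟨n, h⟩
  unfold jj
  rw [dif_pos hb]
  exact (cl_of_le (Nat.find_min' hb h) (Nat.find_spec hb)).symm

theorem jj_inj {f g : I → S.V} (hf : Bd W S f) (hg : Bd W S g) :
    jj W S S' f = jj W S S' g ↔ f =ᶠ[(W : Filter I)] g := by
  obtain ⟨n, hn⟩ := hf
  obtain ⟨m, hm⟩ := hg
  have h1 := inLev_mono (le_max_left n m) hn
  have h2 := inLev_mono (le_max_right n m) hm
  rw [jj_eq h1, jj_eq h2]
  exact ⟨cl_inj _ f g h1 h2, cl_congr _⟩

theorem jj_mem {f g : I → S.V} (hf : Bd W S f) (hg : Bd W S g) :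
    S'.mem (jj W S S' g) (jj W S S' f) ↔ Em W S g f := by
  obtain ⟨n, hn⟩ := hf
  obtain ⟨m, hm⟩ := hg
  have h1 := inLev_mono (show n ≤ max n m + 1 by omega) hn
  have h2 := inLev_mono (show m ≤ max n m by omega) hm
  rw [jj_eq h1, jj_eq h2]
  exact cl_mem h2

theorem jj_mem_exists {f : I → S.V} {y : S'.V} (hf : Bd W S f) (h : S'.mem y (jj W S S' f)) :
    ∃ g, Bd W S g ∧ Em W S g f ∧ jj W S S' g = y := by
  obtain ⟨n, hn⟩ := hf
  have h1 := inLev_mono (Nat.le_succ n) hn
  rw [jj_eq h1] at h
  obtain ⟨g, hg1, hg2, hg3⟩ := cl_mem_exists h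
  exact ⟨g, ⟨n, hg1⟩, hg2, by rw [jj_eq hg1, hg3]⟩

theorem bd_of_em {f g : I → S.V} (hf : Bd W S f) (hg : Em W S g f) : Bd W S g := by
  obtain ⟨n, hn⟩ := hf
  exact ⟨n, inLev_of_em (inLev_mono (Nat.le_succ n) hn) hg⟩

theorem bd_const (a : S.V) : Bd W S (fun _ => a) := by
  obtain ⟨n, hn⟩ := S.exists_level a
  exact ⟨n, Filter.Eventually.of_forall fun _ => hn⟩

/-- Łoś's theorem for bounded formulas -/
theorem los (φ : BddFormula) : ∀ (a : ℕ → I → S.V), (∀ k, Bd W S (a k)) →
    (S'.Sat φ (fun k => jj W S S' (a k)) ↔ ∀ᶠ i in (W : Filter I), S.Sat φ (fun k => a k i)) := by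
  induction φ with
  | mem i j =>
    intro a ha
    simp only [sat_mem]
    exact jj_mem (ha j) (ha i)
  | eq i j =>
    intro a ha
    simp only [sat_eq]
    exact jj_inj (ha i) (ha j)
  | not φ ih =>
    intro a ha
    simp only [sat_not]
    rw [ih a ha, Ultrafilter.eventually_not]
  | and φ ψ ih1 ih2 =>
    intro a ha
    simp only [sat_and]
    rw [ih1 a ha, ih2 a ha, Filter.eventually_and]
  | ball i j φ ih =>
    intro a ha
    simp only [sat_ball]
    have e1 : ∀ g : I → S.V, (fun k => jj W S S' (Function.update a i g k)) =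
        Function.update (fun k => jj W S S' (a k)) i (jj W S S' g) := by
      intro g
      funext k
      by_cases hk : k = i
      · subst hk; simp
      · simp [Function.update_of_ne hk]
    have e2 : ∀ (g : I → S.V) (i' : I), (fun k => (Function.update a i g k) i') =
        Function.update (fun k => a k i') i (g i') := by
      intro g i'
      funext k
      by_cases hk : k = i
      · subst hk; simp
      · simp [Function.update_of_ne hk]
    have hupd : ∀ g : I → S.V, Bd W S g → ∀ k, Bd W S (Function.update a i g k) := by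
      intro g hg k
      by_cases hk : k = i
      · subst hk; simpa using hg
      · rw [Function.update_of_ne hk]; exact ha k
    constructor
    · intro h
      by_contra hcon
      have h1 : ∀ᶠ i' in (W : Filter I), ¬ ∀ c, S.mem c (a j i') →
          S.Sat φ (Function.update (fun k => a k i') i c) := Ultrafilter.eventually_not.2 hcon
      have h2 : ∀ᶠ i' in (W : Filter I), ∃ c, S.mem c (a j i') ∧
          ¬ S.Sat φ (Function.update (fun k => a k i') i c) := by
        filter_upwards [h1] with i' hi'
        push Not at hi'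
        exact hi'
      obtain ⟨g, hg⟩ := h2.choice
      have hgm : Em W S g (a j) := hg.mono fun i' hi' => hi'.1
      have hgb : Bd W S g := bd_of_em (ha j) hgm
      have h3 := h (jj W S S' g) ((jj_mem (ha j) hgb).2 hgm)
      rw [← e1 g, ih _ (hupd g hgb)] at h3
      have h4 : ∀ᶠ i in (W : Filter I), False := by
        filter_upwards [h3, hg] with i' h5 h6
        rw [e2 g i'] at h5
        exact h6.2 h5
      exact (Filter.eventually_false_iff_eq_bot.1 h4 |> W.neBot.ne)
    · intro h c hc
      obtain ⟨g, hgb, hgm, rfl⟩ := jj_mem_exists (ha j) hc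
      rw [← e1 g, ih _ (hupd g hgb)]
      filter_upwards [h, hgm] with i' h5 h6
      rw [e2 g i']
      exact h5 _ h6

theorem star_level {n : ℕ} : ∀ {a : S.V}, jj W S S' (fun _ => a) ∈ S'.level n ↔ a ∈ S.level n := by
  intro a
  constructor
  · induction n generalizing a with
    | zero =>
      intro h
      by_contra hna
      obtain ⟨m, hm⟩ := S.exists_level a
      have hat : ¬ IsAt W S (fun _ => a) := by
        intro hh
        unfold IsAt at hh
        rw [Filter.eventually_const] at hh
        rw [S.level_zero] at hna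
        exact hna hh
      have hlev : InLev W S (m + 1) (fun _ => a) :=
        Filter.Eventually.of_forall fun _ => level_mono_succ m hm
      rw [jj_eq hlev, cl_succ_of_not hat, S'.level_zero] at h
      exact coll_not_atom _ h
    | succ n ih =>
      intro h
      by_cases hat : a ∈ Set.range S.atom
      · obtain ⟨x, rfl⟩ := hat
        exact atom_mem_level x _
      · apply mem_level_succ_of hat
        intro c hc
        apply ih
        have h1 : S'.mem (jj W S S' (fun _ => c)) (jj W S S' (fun _ => a)) :=
          (jj_mem (bd_const a) (bd_const c)).2 (Filter.Eventually.of_forall fun _ => hc)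
        exact mem_level_of_mem h h1
  · intro h
    have hlev : InLev W S n (fun _ => a) := Filter.Eventually.of_forall fun _ => h
    rw [jj_eq hlev]
    exact cl_level n _ hlev

theorem jj_atom (f : I → ℕ) : jj W S S' (fun i => S.atom (f i)) = S'.atom ((f : Yt W)) := by
  have hlev : InLev W S 0 (fun i => S.atom (f i)) :=
    Filter.Eventually.of_forall fun i => atom_mem_level _ 0
  rw [jj_eq hlev, cl]
  unfold gm
  simp only [num_atom]

theorem bd_atom (f : I → ℕ) : Bd W S (fun i => S.atom (f i)) :=
  ⟨0, Filter.Eventually.of_forall fun _ => atom_mem_level _ 0⟩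

variable (W S S')

/-- the ultrapower as a nonstandard extension -/
noncomputable def ext : NonstandardExtension.{0, v, w} where
  Y := Yt W
  VN := S
  VY := S'
  ι n := ((fun _ => n : I → ℕ) : Yt W)
  ι_injective := by
    intro m n h
    have h1 := Filter.Germ.coe_eq.1 h
    have h2 : ∀ᶠ _ in (W : Filter I), m = n := h1
    rwa [Filter.eventually_const] at h2
  star a := jj W S S' (fun _ => a)
  rank_star a := by
    unfold Superstructure.rank
    congr 1
    ext n
    exact star_level
  star_atom n := jj_atom (fun _ => n)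
  star_univ := by
    have hbd : S'.atom '' Set.univ ⊆ S'.level 0 := by
      rintro _ ⟨x, _, rfl⟩; exact atom_mem_level x 0
    have hna : jj W S S' (fun _ => S.ofSet Set.univ) ∉ Set.range S'.atom := by
      intro h
      rw [← S'.level_zero, star_level, S.level_zero] at h
      exact coll_not_atom _ h
    unfold Superstructure.ofSet at hna ⊢
    rw [eq_coll_iff hbd hna]
    intro c
    constructor
    · intro hc
      obtain ⟨g, hgb, hgm, rfl⟩ := jj_mem_exists (bd_const _) hc
      have hat : IsAt W S g := by
        filter_upwards [hgm] with i hi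
        obtain ⟨x, _, hx⟩ := mem_ofSet.1 hi
        exact ⟨x, hx⟩
      rw [jj_eq (inLev_zero.2 hat), cl]
      exact ⟨_, trivial, rfl⟩
    · rintro ⟨y, _, rfl⟩
      induction y using Filter.Germ.inductionOn with
      | _ f =>
        rw [← jj_atom (S := S)]
        exact (jj_mem (bd_const _) (bd_atom f)).2
          (Filter.Eventually.of_forall fun i => atom_mem_ofSet.2 trivial)
  transfer φ a := by
    rw [los φ (fun k _ => a k) (fun k => bd_const (a k))]
    rw [Filter.eventually_const]

variable {W S S'}

theorem mem_v_ext {T : Set ℕ} (f : I → ℕ) :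
    T ∈ (ext W S S').v (f : Yt W) ↔ ∀ᶠ i in (W : Filter I), f i ∈ T := by
  show S'.mem (S'.atom (f : Yt W)) (jj W S S' (fun _ => S.ofSet T)) ↔ _
  rw [← jj_atom (S := S), jj_mem (bd_const _) (bd_atom f)]
  unfold Em
  exact Filter.eventually_congr (Filter.Eventually.of_forall fun i => atom_mem_ofSet)

theorem isProd_ext (f g h : I → ℕ) (hh : ∀ i, h i = f i * g i) :
    (ext W S S').IsProd (f : Yt W) (g : Yt W) (h : Yt W) := by
  unfold NonstandardExtension.IsProd
  have key := los (W := W) (S := S) (S' := S') (BddFormula.rel3 0 1 2 3 4 5 6 7 8)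
    (fun k => if k = 0 then (fun _ => mulGraph S) else if k = 1 then (fun i => S.atom (f i)) else
      if k = 2 then (fun i => S.atom (g i)) else (fun i => S.atom (h i)))
    (by
      intro k
      split_ifs
      · exact bd_const _
      · exact bd_atom _
      · exact bd_atom _
      · exact bd_atom _)
  rw [sat_rel3 (by decide) (by decide) (by decide) (by decide) (by decide) (by decide)
          (by decide) (by decide) (by decide) (by decide) (by decide) (by decide)
          (by decide) (by decide) (by decide) (by decide) (by decide) (by decide)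
          (by decide)] at key
  simp (decide := true) only [if_true, if_false, jj_atom] at key
  apply key.2
  apply Filter.Eventually.of_forall
  intro i
  rw [sat_rel3 (by decide) (by decide) (by decide) (by decide) (by decide) (by decide)
          (by decide) (by decide) (by decide) (by decide) (by decide) (by decide)
          (by decide) (by decide) (by decide) (by decide) (by decide) (by decide)
          (by decide)]
  simp (decide := true) only [if_true, if_false]
  rw [mem_mulGraph]
  exact hh i

end Ultrapower

/-- There is a proper nonstandard extension. -/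
theorem exists_proper : ∃ E : NonstandardExtension.{0, 1, 1}, E.Proper := by
  let W : Ultrafilter ℕ := Filter.hyperfilter ℕ
  refine ⟨Ultrapower.ext W (SuperExists.theSuper ℕ) (SuperExists.theSuper (Ultrapower.Yt W)),
    (((fun n => n : ℕ → ℕ)) : Ultrapower.Yt W), ?_⟩
  rintro ⟨n, hn⟩
  have h1 : (((fun _ => n : ℕ → ℕ)) : Ultrapower.Yt W) = (((fun n => n : ℕ → ℕ)) : Ultrapower.Yt W) := hn
  have h2 := Filter.Germ.coe_eq.1 h1
  have h3 : {m : ℕ | n = m} ∈ (Filter.hyperfilter ℕ : Filter ℕ) := h2
  have h4 : {m : ℕ | n = m}.Finite := (Set.finite_singleton n).subset (by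
    intro m hm
    have hm' : n = m := hm
    simp [hm'])
  exact Filter.notMem_hyperfilter_of_finite h4 h3

end Pool.Agent.Hhelper77
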