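import Mathlib

/-!
Superstructures over a set of atoms, bounded formulas, nonstandard extensions.
-/

universe u v w

namespace Pool.Agent.Hhelper77

/-- A superstructure over the set `X` of atoms: a universe `V` of objects with a membership
relation `mem a b` (read: `a` is an element of `b`), in which the atoms `atom x` (`x ∈ X`) are
pairwise distinct and have no elements, every other object is a set determined by its elements,
and, with `level 0 = X` and `level (n+1) = level n ∪ 𝒫 (level n)`, every object lies in some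
`level n` and every subset of `level n` is an object. -/
structure Superstructure (X : Type u) where
  /-- the objects -/
  V : Type v
  /-- `mem a b` means that `a` is an element of `b` -/
  mem : V → V → Prop
  /-- the atoms -/
  atom : X → V
  /-- the levels `V_n` -/
  level : ℕ → Set V
  atom_injective : Function.Injective atom
  not_mem_atom : ∀ (x : X) (a : V), ¬ mem a (atom x)
  ext : ∀ a b : V, a ∉ Set.range atom → b ∉ Set.range atom → (∀ c, mem c a ↔ mem c b) → a = b
  level_zero : level 0 = Set.range atom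
  level_succ : ∀ n, level (n + 1) =
    level n ∪ {a | a ∉ Set.range atom ∧ ∀ c, mem c a → c ∈ level n}
  exists_level : ∀ a, ∃ n, a ∈ level n
  exists_set : ∀ (n : ℕ) (A : Set V), A ⊆ level n →
    ∃ a, a ∉ Set.range atom ∧ ∀ c, mem c a ↔ c ∈ A

/-- Formulas of the language of set theory, built from `x_i ∈ x_j` and `x_i = x_j` with negation,
conjunction and bounded quantifiers `∀ x_i ∈ x_j` only. -/
inductive BddFormula : Type
  | mem (i j : ℕ)
  | eq (i j : ℕ)
  | not (φ : BddFormula)
  | and (φ ψ : BddFormula)
  | ball (i j : ℕ) (φ : BddFormula)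

namespace Superstructure

variable {X : Type u} (S : Superstructure.{u, v} X)

/-- Satisfaction of a bounded formula in a superstructure under an assignment of the variables. -/
def Sat : BddFormula → (ℕ → S.V) → Prop
  | .mem i j, a => S.mem (a i) (a j)
  | .eq i j, a => a i = a j
  | .not φ, a => ¬ Sat φ a
  | .and φ ψ, a => Sat φ a ∧ Sat ψ a
  | .ball i j φ, a => ∀ c, S.mem c (a j) → Sat φ (Function.update a i c)

/-- The rank of an object: the least `n` with the object in `V_n`. -/
noncomputable def rank (a : S.V) : ℕ := sInf {n | a ∈ S.level n}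

open Classical in
/-- `S.coll A` is the object of the superstructure that is the set `A`, for `A` a set of objects
contained in some level (and an irrelevant value otherwise). -/
noncomputable def coll (A : Set S.V) : S.V :=
  if h : ∃ a, a ∉ Set.range S.atom ∧ ∀ c, S.mem c a ↔ c ∈ A then h.choose
  else (S.exists_set 0 ∅ (Set.empty_subset _)).choose

/-- The Kuratowski ordered pair `(a,b) = {{a},{a,b}}`. -/
noncomputable def pair (a b : S.V) : S.V := S.coll {S.coll {a}, S.coll {a, b}}

/-- A set `T` of atoms as an object of the superstructure. -/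
noncomputable def ofSet (T : Set X) : S.V := S.coll (S.atom '' T)

/-! ### basic lemmas -/

variable {S}

theorem level_mono_succ (n : ℕ) : S.level n ⊆ S.level (n + 1) := by
  rw [S.level_succ]; exact Set.subset_union_left

theorem level_mono {m n : ℕ} (h : m ≤ n) : S.level m ⊆ S.level n := by
  induction h with
  | refl => exact subset_rfl
  | step _ ih => exact ih.trans (level_mono_succ _)

theorem atom_mem_level (x : X) (n : ℕ) : S.atom x ∈ S.level n := by
  apply level_mono (Nat.zero_le n)
  rw [S.level_zero]; exact ⟨x, rfl⟩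

theorem mem_level_of_mem {a c : S.V} : ∀ {n : ℕ}, a ∈ S.level (n + 1) → S.mem c a →
    c ∈ S.level n := by
  intro n
  induction n with
  | zero =>
    intro ha hc
    rw [S.level_succ, S.level_zero] at ha
    rcases ha with ⟨x, rfl⟩ | ha
    · exact absurd hc (S.not_mem_atom x c)
    · rw [S.level_zero]; exact ha.2 c hc
  | succ n ih =>
    intro ha hc
    rw [S.level_succ] at ha
    rcases ha with ha | ha
    · exact level_mono_succ _ (ih ha hc)
    · exact ha.2 c hc

theorem not_mem_of_level_zero {a c : S.V} (ha : a ∈ S.level 0) : ¬ S.mem c a := by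
  rw [S.level_zero] at ha
  obtain ⟨x, rfl⟩ := ha
  exact S.not_mem_atom x c

theorem mem_level_of_mem' {a c : S.V} {n : ℕ} (ha : a ∈ S.level n) (hc : S.mem c a) :
    c ∈ S.level n := by
  cases n with
  | zero => exact absurd hc (not_mem_of_level_zero ha)
  | succ n => exact level_mono_succ _ (mem_level_of_mem ha hc)

theorem mem_level_succ_of {a : S.V} {n : ℕ} (ha : a ∉ Set.range S.atom)
    (h : ∀ c, S.mem c a → c ∈ S.level n) : a ∈ S.level (n + 1) := by
  rw [S.level_succ]; exact Or.inr ⟨ha, h⟩

theorem coll_spec {A : Set S.V} {n : ℕ} (h : A ⊆ S.level n) :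
    S.coll A ∉ Set.range S.atom ∧ ∀ c, S.mem c (S.coll A) ↔ c ∈ A := by
  unfold coll
  have h' := S.exists_set n A h
  rw [dif_pos h']
  exact h'.choose_spec

theorem coll_not_atom (A : Set S.V) : S.coll A ∉ Set.range S.atom := by
  unfold coll
  split_ifs with h
  · exact h.choose_spec.1
  · exact (S.exists_set 0 ∅ (Set.empty_subset _)).choose_spec.1

theorem mem_coll {A : Set S.V} {n : ℕ} (h : A ⊆ S.level n) {c : S.V} :
    S.mem c (S.coll A) ↔ c ∈ A := (coll_spec h).2 c

theorem coll_mem_level {A : Set S.V} {n : ℕ} (h : A ⊆ S.level n) :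
    S.coll A ∈ S.level (n + 1) :=
  mem_level_succ_of (coll_not_atom A) fun _ hc => h ((mem_coll h).1 hc)

theorem finite_bdd {A : Set S.V} (hA : A.Finite) : ∃ n, A ⊆ S.level n := by
  induction A, hA using Set.Finite.induction_on with
  | empty => exact ⟨0, Set.empty_subset _⟩
  | @insert a A _ _ ih =>
    obtain ⟨n, hn⟩ := ih
    obtain ⟨m, hm⟩ := S.exists_level a
    refine ⟨max n m, ?_⟩
    rintro x (rfl | hx)
    · exact level_mono (le_max_right _ _) hm
    · exact level_mono (le_max_left _ _) (hn hx)

theorem mem_coll_finite {A : Set S.V} (hA : A.Finite) {c : S.V} :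
    S.mem c (S.coll A) ↔ c ∈ A := by
  obtain ⟨n, hn⟩ := finite_bdd hA
  exact mem_coll hn

theorem eq_coll_iff {A : Set S.V} {n : ℕ} (h : A ⊆ S.level n) {a : S.V}
    (ha : a ∉ Set.range S.atom) : a = S.coll A ↔ ∀ c, S.mem c a ↔ c ∈ A := by
  constructor
  · rintro rfl c; exact mem_coll h
  · intro hc
    exact S.ext _ _ ha (coll_not_atom A) fun c => (hc c).trans (mem_coll h).symm

theorem not_atom_of_mem {a c : S.V} (h : S.mem c a) : a ∉ Set.range S.atom := by
  rintro ⟨x, rfl⟩
  exact S.not_mem_atom x c h

theorem eq_single_iff {s p : S.V} :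
    s = S.coll {p} ↔ (S.mem p s ∧ ∀ c, S.mem c s → c = p) := by
  constructor
  · rintro rfl
    constructor
    · exact (mem_coll_finite (Set.finite_singleton p)).2 rfl
    · intro c hc
      exact (mem_coll_finite (Set.finite_singleton p)).1 hc
  · rintro ⟨h1, h2⟩
    obtain ⟨n, hn⟩ := finite_bdd (S := S) (Set.finite_singleton p)
    rw [eq_coll_iff hn (not_atom_of_mem h1)]
    intro c
    constructor
    · intro hc; exact h2 c hc
    · rintro rfl; exact h1

theorem eq_upair_iff {s p q : S.V} :
    s = S.coll {p, q} ↔ (S.mem p s ∧ S.mem q s ∧ ∀ c, S.mem c s → (c = p ∨ c = q)) := by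
  constructor
  · rintro rfl
    refine ⟨(mem_coll_finite (Set.toFinite _)).2 (by simp),
      (mem_coll_finite (Set.toFinite _)).2 (by simp), ?_⟩
    intro c hc
    exact (mem_coll_finite (Set.toFinite _)).1 hc
  · rintro ⟨h1, h2, h3⟩
    obtain ⟨n, hn⟩ := finite_bdd (S := S) (Set.toFinite {p, q})
    rw [eq_coll_iff hn (not_atom_of_mem h1)]
    intro c
    constructor
    · intro hc; exact h3 c hc
    · rintro (rfl | hc)
      · exact h1
      · rw [Set.mem_singleton_iff] at hc; rw [hc]; exact h2

theorem single_eq_upair {p q : S.V} {r : S.V} (h : S.coll {r} = S.coll {p, q}) :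
    p = r ∧ q = r := by
  have h' := (eq_upair_iff.1 h)
  constructor
  · exact (mem_coll_finite (Set.finite_singleton r)).1 h'.1
  · exact (mem_coll_finite (Set.finite_singleton r)).1 h'.2.1

theorem eq_pair_iff {t p q : S.V} :
    t = S.pair p q ↔ ((∃ s, S.mem s t ∧ s = S.coll {p}) ∧ (∃ s, S.mem s t ∧ s = S.coll {p, q}) ∧
      ∀ s, S.mem s t → (s = S.coll {p} ∨ s = S.coll {p, q})) := by
  unfold pair
  rw [eq_upair_iff]
  constructor
  · rintro ⟨h1, h2, h3⟩
    exact ⟨⟨_, h1, rfl⟩, ⟨_, h2, rfl⟩, h3⟩
  · rintro ⟨⟨_, h1, rfl⟩, ⟨_, h2, rfl⟩, h3⟩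
    exact ⟨h1, h2, h3⟩

theorem pair_inj {a b a' b' : S.V} (h : S.pair a b = S.pair a' b') : a = a' ∧ b = b' := by
  have h' := eq_upair_iff.1 h
  have hm : ∀ s, S.mem s (S.pair a b) ↔ (s = S.coll {a} ∨ s = S.coll {a, b}) := by
    intro s
    unfold pair
    rw [mem_coll_finite (Set.toFinite _)]
    simp
  have ha : a = a' := by
    have h1 := (hm _).1 h'.1
    rcases h1 with h1 | h1
    · have := (eq_single_iff.1 h1).1
      exact (mem_coll_finite (Set.finite_singleton a')).1 this
    · exact (single_eq_upair h1).1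
  subst ha
  refine ⟨rfl, ?_⟩
  have h2 := (hm _).1 h'.2.1
  rcases h2 with h2 | h2
  · -- {a,b'} = {a}
    have hb' := (single_eq_upair h2.symm).2
    subst hb'
    have h3 := h'.2.2 (S.coll {b', b}) ((hm _).2 (Or.inr rfl))
    rcases h3 with h3 | h3
    · exact (single_eq_upair h3.symm).2
    · have : S.mem b (S.coll {b', b'}) := (eq_upair_iff.1 h3.symm).2.1
      have := (mem_coll_finite (Set.toFinite _)).1 this
      simpa using this
  · have hb : S.mem b (S.coll {a, b'}) := (eq_upair_iff.1 h2).2.1
    have hb' : S.mem b' (S.coll {a, b}) := (eq_upair_iff.1 h2.symm).2.1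
    have hb := (mem_coll_finite (Set.toFinite _)).1 hb
    have hb' := (mem_coll_finite (Set.toFinite _)).1 hb'
    simp only [Set.mem_insert_iff, Set.mem_singleton_iff] at hb hb'
    rcases hb with hb | hb
    · rcases hb' with hb' | hb'
      · rw [hb, hb']
      · rw [hb']
    · exact hb

theorem pair_mem_level {a b : S.V} {n : ℕ} (ha : a ∈ S.level n) (hb : b ∈ S.level n) :
    S.pair a b ∈ S.level (n + 2) := by
  unfold pair
  apply coll_mem_level
  rintro x (rfl | hx)
  · apply coll_mem_level
    rintro y hy
    rw [Set.mem_singleton_iff] at hy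
    rw [hy]; exact ha
  · rw [Set.mem_singleton_iff] at hx
    rw [hx]
    apply coll_mem_level
    rintro y (rfl | hy)
    · exact ha
    · rw [Set.mem_singleton_iff] at hy
      rw [hy]; exact hb

theorem mem_ofSet {T : Set X} {c : S.V} : S.mem c (S.ofSet T) ↔ ∃ x ∈ T, S.atom x = c := by
  unfold ofSet
  have h : S.atom '' T ⊆ S.level 0 := by
    rintro _ ⟨x, _, rfl⟩; exact atom_mem_level x 0
  rw [mem_coll h]
  rfl

theorem atom_mem_ofSet {T : Set X} {x : X} : S.mem (S.atom x) (S.ofSet T) ↔ x ∈ T := by
  rw [mem_ofSet]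
  constructor
  · rintro ⟨y, hy, h⟩
    rw [← S.atom_injective h]; exact hy
  · intro h; exact ⟨x, h, rfl⟩

end Superstructure

/-- The graph of multiplication on `ℕ`, i.e. the set of all `((m,n),m·n)`, as an object of a
superstructure over `ℕ`. -/
noncomputable def mulGraph (S : Superstructure.{0, v} ℕ) : S.V :=
  S.coll {t | ∃ m n : ℕ, t = S.pair (S.pair (S.atom m) (S.atom n)) (S.atom (m * n))}

/-- A nonstandard extension `* : V(N) → V(Y)`, `Y = *N`. -/
structure NonstandardExtension where
  /-- the set `*N`, the atoms of the target superstructure -/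
  Y : Type u
  /-- the superstructure `V(N)` -/
  VN : Superstructure.{0, v} ℕ
  /-- the superstructure `V(*N)` -/
  VY : Superstructure.{u, w} Y
  /-- the inclusion of `N` in `*N` -/
  ι : ℕ → Y
  ι_injective : Function.Injective ι
  /-- the map `*` -/
  star : VN.V → VY.V
  rank_star : ∀ a, VY.rank (star a) = VN.rank a
  star_atom : ∀ n, star (VN.atom n) = VY.atom (ι n)
  star_univ : star (VN.ofSet Set.univ) = VY.ofSet Set.univ
  transfer : ∀ (φ : BddFormula) (a : ℕ → VN.V), VN.Sat φ a ↔ VY.Sat φ (fun k => star (a k))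

namespace NonstandardExtension

variable (E : NonstandardExtension.{u, v, w})

/-- The extension is proper: `*N ≠ N`. -/
def Proper : Prop := ∃ y : E.Y, y ∉ Set.range E.ι

/-- `*T ⊆ *N` for `T ⊆ N`. -/
def starSet (T : Set ℕ) : Set E.Y := {y | E.VY.mem (E.VY.atom y) (E.star (E.VN.ofSet T))}

/-- `p` is the product of `x` and `z` in `*N`: `((x,z),p)` belongs to `*` of the graph of
multiplication on `N`. -/
def IsProd (x z p : E.Y) : Prop :=
  E.VY.mem (E.VY.pair (E.VY.pair (E.VY.atom x) (E.VY.atom z)) (E.VY.atom p))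
    (E.star (mulGraph E.VN))

end NonstandardExtension

end Pool.Agent.Hhelper77
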